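import Mathlib

/-! Erdős–Rényi subgraph pairs: the model of the problem MP_1dfc85_pr. -/

open scoped BigOperators

namespace Pool.Agent.Helper17.ER

/-- The mass of the labelled graph `G` under the law `ER(n,p)`. -/
noncomputable def erMass (n : ℕ) (p : ℝ) (G : SimpleGraph (Fin n)) : ℝ :=
  p ^ G.edgeSet.ncard * (1 - p) ^ (n.choose 2 - G.edgeSet.ncard)

/-- The graph `H_π` on `[m]`: the induced subgraph `G[S]` relabelled through the
bijection `π : S → [m]`. -/
def relabel {n m : ℕ} (G : SimpleGraph (Fin n)) (S : Finset (Fin n))
    (π : {x : Fin n // x ∈ S} ≃ Fin m) : SimpleGraph (Fin m) :=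
  G.comap (fun i => (π.symm i : Fin n))

/-- A (possibly randomised) estimator: it maps the observation `(G, H_π)` to a
probability distribution on the `m`-element subsets of `[n]`. -/
abbrev Estimator (n m : ℕ) : Type :=
  SimpleGraph (Fin n) → SimpleGraph (Fin m) → PMF {S : Finset (Fin n) // S.card = m}

open Classical in
/-- The probability that the estimator `A` outputs the true set `S`, when `G` has law
`ER(n,p)`, `S` is a uniform `m`-element subset of `[n]`, `π : S → [m]` is a uniform
bijection and `A` observes `(G, H_π)`. -/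
noncomputable def successProb (n m : ℕ) (p : ℝ) (A : Estimator n m) : ℝ :=
  ∑ G : SimpleGraph (Fin n), erMass n p G *
    (∑ S : {S : Finset (Fin n) // S.card = m}, (1 / (n.choose m : ℝ)) *
      (∑ π : ({x : Fin n // x ∈ S.1} ≃ Fin m), (1 / (m.factorial : ℝ)) *
        (A G (relabel G S.1 π) S).toReal))

end Pool.Agent.Helper17.ER
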