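import Mathlib

/-! Product Bernoulli weights on `E → Bool`. -/

open scoped BigOperators

namespace Pool.Agent.Helper17.ER

/-- Bernoulli product weight. -/
noncomputable def w (p : ℝ) {E : Type*} [Fintype E] (x : E → Bool) : ℝ :=
  ∏ e, (if x e then p else 1 - p)

section
variable {E : Type*} [Fintype E] [DecidableEq E] {p : ℝ}

theorem sum_w_prod (g : E → Bool → ℝ) :
    ∑ x : E → Bool, w p x * ∏ e, g e (x e) = ∏ e, (p * g e true + (1 - p) * g e false) := by
  have h := Finset.prod_univ_sum (fun _ : E => (Finset.univ : Finset Bool))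
    (fun e b => (if b then p else 1 - p) * g e b)
  simp only [Fintype.piFinset_univ] at h
  have h2 : ∀ e, ∑ b : Bool, (if b then p else 1 - p) * g e b = p * g e true + (1 - p) * g e false := by
    intro e; simp
  simp only [h2] at h
  rw [h]
  refine Finset.sum_congr rfl fun x _ => ?_
  rw [w, ← Finset.prod_mul_distrib]

theorem sum_w : ∑ x : E → Bool, w p x = 1 := by
  have h := sum_w_prod (E := E) (p := p) (fun _ _ => 1)
  simpa using h

omit [DecidableEq E] in
theorem w_nonneg (hp0 : 0 ≤ p) (hp1 : p ≤ 1) (x : E → Bool) : 0 ≤ w p x := by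
  refine Finset.prod_nonneg fun e _ => ?_
  split_ifs <;> linarith

theorem sum_w_mul_le {Φ : (E → Bool) → ℝ} (hp0 : 0 ≤ p) (hp1 : p ≤ 1) {c : ℝ}
    (h : ∀ x, Φ x ≤ c) : ∑ x : E → Bool, w p x * Φ x ≤ c := by
  calc ∑ x : E → Bool, w p x * Φ x ≤ ∑ x : E → Bool, w p x * c :=
        Finset.sum_le_sum fun x _ => mul_le_mul_of_nonneg_left (h x) (w_nonneg hp0 hp1 x)
    _ = c := by rw [← Finset.sum_mul, sum_w, one_mul]

theorem le_sum_w_mul {Φ : (E → Bool) → ℝ} (hp0 : 0 ≤ p) (hp1 : p ≤ 1) {c : ℝ}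
    (h : ∀ x, c ≤ Φ x) : c ≤ ∑ x : E → Bool, w p x * Φ x := by
  calc c = ∑ x : E → Bool, w p x * c := by rw [← Finset.sum_mul, sum_w, one_mul]
    _ ≤ ∑ x : E → Bool, w p x * Φ x :=
        Finset.sum_le_sum fun x _ => mul_le_mul_of_nonneg_left (h x) (w_nonneg hp0 hp1 x)

end

/-- Change of index set. -/
theorem sum_w_equiv {E F : Type*} [Fintype E] [DecidableEq E] [Fintype F] [DecidableEq F] {p : ℝ}
    (e : F ≃ E) (Φ : (F → Bool) → ℝ) :
    ∑ x : E → Bool, w p x * Φ (x ∘ e) = ∑ z : F → Bool, w p z * Φ z := by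
  refine Fintype.sum_equiv (Equiv.arrowCongr e.symm (Equiv.refl Bool)) _ _ fun x => ?_
  have h1 : (Equiv.arrowCongr e.symm (Equiv.refl Bool)) x = x ∘ e := by
    ext i; simp [Equiv.arrowCongr]
  rw [h1]
  congr 1
  unfold w
  exact (Fintype.prod_equiv e _ _ (fun i => rfl)).symm

/-- Splitting over a sum type. -/
theorem sum_w_sum {I J : Type*} [Fintype I] [DecidableEq I] [Fintype J] [DecidableEq J] {p : ℝ}
    (Φ : (I → Bool) → (J → Bool) → ℝ) :
    ∑ x : (I ⊕ J) → Bool, w p x * Φ (x ∘ Sum.inl) (x ∘ Sum.inr) =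
      ∑ y : I → Bool, w p y * ∑ z : J → Bool, w p z * Φ y z := by
  have h1 : ∑ x : (I ⊕ J) → Bool, w p x * Φ (x ∘ Sum.inl) (x ∘ Sum.inr) =
      ∑ q : (I → Bool) × (J → Bool), (w p q.1 * w p q.2) * Φ q.1 q.2 := by
    refine Fintype.sum_equiv (Equiv.sumArrowEquivProdArrow I J Bool) _ _ fun x => ?_
    have hw : w p x = w p (x ∘ Sum.inl) * w p (x ∘ Sum.inr) := by
      unfold w; rw [Fintype.prod_sum_type]; rfl
    rw [hw]; rfl
  rw [h1, Fintype.sum_prod_type]
  refine Finset.sum_congr rfl fun y _ => ?_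
  rw [Finset.mul_sum]
  refine Finset.sum_congr rfl fun z _ => ?_
  ring

/-- Marginalisation along an injective map of coordinates. -/
theorem sum_w_marginal {E I : Type*} [Fintype E] [DecidableEq E] [Fintype I] [DecidableEq I] {p : ℝ}
    (ρ : I → E) (hρ : Function.Injective ρ) (Φ : (I → Bool) → ℝ) :
    ∑ x : E → Bool, w p x * Φ (x ∘ ρ) = ∑ z : I → Bool, w p z * Φ z := by
  classical
  let e : I ⊕ {a : E // ¬ a ∈ Set.range ρ} ≃ E :=
    (Equiv.sumCongr (Equiv.ofInjective ρ hρ) (Equiv.refl _)).trans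
      (Equiv.sumCompl (fun a => a ∈ Set.range ρ))
  have he : ∀ i, e (Sum.inl i) = ρ i := by intro i; simp [e]
  have h1 := sum_w_equiv (p := p) e (fun z => Φ (z ∘ Sum.inl))
  have h2 := sum_w_sum (p := p) (I := I) (J := {a : E // ¬ a ∈ Set.range ρ}) (fun y _ => Φ y)
  have h3 : ∀ x : E → Bool, (x ∘ e) ∘ Sum.inl = x ∘ ρ := by
    intro x; ext i; simp [he]
  simp only [h3] at h1
  rw [h1, h2]
  refine Finset.sum_congr rfl fun y _ => ?_
  rw [← Finset.sum_mul, sum_w, one_mul]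

/-- Independence over rows. -/
theorem sum_w_rows {V J : Type*} [Fintype V] [DecidableEq V] [Fintype J] [DecidableEq J] {p : ℝ}
    (φ : V → (J → Bool) → ℝ) :
    ∑ x : V × J → Bool, w p x * ∏ v, φ v (fun j => x (v, j)) =
      ∏ v, ∑ z : J → Bool, w p z * φ v z := by
  have h := Finset.prod_univ_sum (fun _ : V => (Finset.univ : Finset (J → Bool)))
    (fun v z => w p z * φ v z)
  simp only [Fintype.piFinset_univ] at h
  rw [h]
  refine Fintype.sum_equiv (Equiv.curry V J Bool) _ _ fun x => ?_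
  rw [Finset.prod_mul_distrib]
  congr 1
  unfold w
  rw [Fintype.prod_prod_type]
  rfl

end Pool.Agent.Helper17.ER
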