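import Mathlib
import Pool.Agent.Helper17.ER.Defs
import Pool.Agent.Helper17.ER.Weights

/-! From graphs to coordinates. -/

open scoped BigOperators

namespace Pool.Agent.Helper17.ER

/-- The graph read off from coordinates indexed by `Sym2`. -/
def graphOf {V : Type*} (x : Sym2 V → Bool) : SimpleGraph V where
  Adj i j := i ≠ j ∧ x s(i, j) = true
  symm := ⟨fun i j h => ⟨h.1.symm, by rw [Sym2.eq_swap]; exact h.2⟩⟩
  loopless := ⟨fun i h => h.1 rfl⟩

theorem graphOf_adj {V : Type*} (x : Sym2 V → Bool) (i j : V) :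
    (graphOf x).Adj i j ↔ i ≠ j ∧ x s(i, j) = true := Iff.rfl

open Classical in
theorem graphOf_eq_iff {V : Type*} (x : Sym2 V → Bool) (G : SimpleGraph V) :
    graphOf x = G ↔ ∀ e : Sym2 V, ¬ e.IsDiag → (x e = decide (e ∈ G.edgeSet)) := by
  constructor
  · rintro rfl e
    induction e using Sym2.ind with
    | _ i j =>
      intro h
      rw [Sym2.mk_isDiag_iff] at h
      have hadj : s(i, j) ∈ (graphOf x).edgeSet ↔ (i ≠ j ∧ x s(i, j) = true) := by
        rw [SimpleGraph.mem_edgeSet, graphOf_adj]
      by_cases hx : x s(i, j) = true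
      · have h3 : s(i, j) ∈ (graphOf x).edgeSet := hadj.2 ⟨h, hx⟩
        rw [hx]; simp only [h3, decide_true]
      · have h3 : ¬ s(i, j) ∈ (graphOf x).edgeSet := fun h4 => hx (hadj.1 h4).2
        simp only [h3, decide_false]
        simpa using hx
  · intro h
    ext i j
    rw [graphOf_adj]
    constructor
    · rintro ⟨h1, h2⟩
      have := h s(i, j) (by rwa [Sym2.mk_isDiag_iff])
      rw [h2] at this
      simpa using this.symm
    · intro h1
      have hne : i ≠ j := h1.ne
      refine ⟨hne, ?_⟩
      have := h s(i, j) (by rwa [Sym2.mk_isDiag_iff])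
      rw [this]
      simpa using h1

open Classical in
theorem sum_fibre (n : ℕ) (p : ℝ) (G : SimpleGraph (Fin n)) :
    ∑ x : Sym2 (Fin n) → Bool, w p x * (if graphOf x = G then 1 else 0) = erMass n p G := by
  have h1 : ∀ x : Sym2 (Fin n) → Bool, (if graphOf x = G then (1 : ℝ) else 0) =
      ∏ e : Sym2 (Fin n), (fun (e : Sym2 (Fin n)) (b : Bool) =>
        if e.IsDiag then (1 : ℝ) else if b = decide (e ∈ G.edgeSet) then 1 else 0) e (x e) := by
    intro x
    by_cases h : graphOf x = G
    · rw [if_pos h]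
      rw [graphOf_eq_iff] at h
      symm
      refine Finset.prod_eq_one fun e _ => ?_
      by_cases he : e.IsDiag
      · simp [he]
      · simp only [he, if_false]
        rw [if_pos (h e he)]
    · rw [if_neg h]
      rw [graphOf_eq_iff] at h
      push Not at h
      obtain ⟨e, he, hx⟩ := h
      symm
      refine Finset.prod_eq_zero (Finset.mem_univ e) ?_
      simp only [he, if_false]
      rw [if_neg hx]
  rw [Finset.sum_congr rfl (fun x _ => by rw [h1 x])]
  rw [sum_w_prod (fun (e : Sym2 (Fin n)) (b : Bool) =>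
        if e.IsDiag then (1 : ℝ) else if b = decide (e ∈ G.edgeSet) then 1 else 0)]
  have h2 : ∀ e : Sym2 (Fin n), (p * (if e.IsDiag then (1 : ℝ) else if true = decide (e ∈ G.edgeSet) then 1 else 0) +
      (1 - p) * (if e.IsDiag then (1 : ℝ) else if false = decide (e ∈ G.edgeSet) then 1 else 0)) =
      (if e ∈ G.edgeSet then p else 1) * (if e ∈ G.edgeSet ∨ e.IsDiag then 1 else 1 - p) := by
    intro e
    by_cases hd : e.IsDiag
    · have : e ∉ G.edgeSet := fun h => G.not_isDiag_of_mem_edgeSet h hd
      simp [hd, this]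
    · by_cases he : e ∈ G.edgeSet
      · simp [hd, he]
      · simp [hd, he]
  rw [Finset.prod_congr rfl (fun e _ => h2 e), Finset.prod_mul_distrib]
  rw [Finset.prod_ite, Finset.prod_ite]
  simp only [Finset.prod_const, mul_one, one_mul, one_pow]
  unfold erMass
  have h3 : (Finset.univ.filter (fun e : Sym2 (Fin n) => e ∈ G.edgeSet)).card = G.edgeSet.ncard := by
    rw [← Set.ncard_coe_finset]
    congr 1
    ext e; simp
  have h4 : (Finset.univ.filter (fun e : Sym2 (Fin n) => ¬ (e ∈ G.edgeSet ∨ e.IsDiag))).card =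
      n.choose 2 - G.edgeSet.ncard := by
    have h5 : (Finset.univ.filter (fun e : Sym2 (Fin n) => ¬ e.IsDiag)).card = n.choose 2 := by
      have := Sym2.card_subtype_not_diag (α := Fin n)
      rw [Fintype.card_fin, Fintype.card_subtype] at this
      rw [← this]
    have h6 : (Finset.univ.filter (fun e : Sym2 (Fin n) => ¬ e.IsDiag)) =
        (Finset.univ.filter (fun e : Sym2 (Fin n) => ¬ (e ∈ G.edgeSet ∨ e.IsDiag))) ∪
        (Finset.univ.filter (fun e : Sym2 (Fin n) => e ∈ G.edgeSet)) := by
      ext e
      simp only [Finset.mem_filter, Finset.mem_univ, true_and, Finset.mem_union]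
      constructor
      · intro h
        by_cases he : e ∈ G.edgeSet
        · right; exact he
        · left; push Not; exact ⟨he, h⟩
      · rintro (h | h)
        · push Not at h; exact h.2
        · exact G.not_isDiag_of_mem_edgeSet h
    have h7 : Disjoint (Finset.univ.filter (fun e : Sym2 (Fin n) => ¬ (e ∈ G.edgeSet ∨ e.IsDiag)))
        (Finset.univ.filter (fun e : Sym2 (Fin n) => e ∈ G.edgeSet)) := by
      rw [Finset.disjoint_left]
      intro e h h'
      simp only [Finset.mem_filter, Finset.mem_univ, true_and] at h h'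
      exact h (Or.inl h')
    rw [h6, Finset.card_union_of_disjoint h7, h3] at h5
    omega
  rw [h3, h4]

open Classical in
/-- Expectation over `ER(n,p)` in coordinates. -/
theorem sum_erMass (n : ℕ) (p : ℝ) (Φ : SimpleGraph (Fin n) → ℝ) :
    ∑ G : SimpleGraph (Fin n), erMass n p G * Φ G =
      ∑ x : Sym2 (Fin n) → Bool, w p x * Φ (graphOf x) := by
  have h1 : ∀ x : Sym2 (Fin n) → Bool, w p x * Φ (graphOf x) =
      ∑ G : SimpleGraph (Fin n), (w p x * (if graphOf x = G then 1 else 0)) * Φ G := by
    intro x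
    rw [Finset.sum_eq_single (graphOf x)]
    · simp
    · intro G _ hG
      rw [if_neg (Ne.symm hG)]; simp
    · intro h; exact absurd (Finset.mem_univ _) h
  simp only [h1]
  rw [Finset.sum_comm]
  refine Finset.sum_congr rfl fun G _ => ?_
  rw [← Finset.sum_mul, sum_fibre]

open Classical in
/-- Marginal: the law of `H_π` for fixed `S, π` is `ER(m,p)`. -/
theorem sum_erMass_relabel {n m : ℕ} (p : ℝ) (S : Finset (Fin n))
    (π : {x : Fin n // x ∈ S} ≃ Fin m) (Φ : SimpleGraph (Fin m) → ℝ) :
    ∑ G : SimpleGraph (Fin n), erMass n p G * Φ (relabel G S π) =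
      ∑ F : SimpleGraph (Fin m), erMass m p F * Φ F := by
  rw [sum_erMass n p (fun G => Φ (relabel G S π)), sum_erMass m p Φ]
  have hinj : Function.Injective (fun i : Fin m => (π.symm i : Fin n)) :=
    Subtype.val_injective.comp π.symm.injective
  have h := sum_w_marginal (p := p) (Sym2.map (fun i : Fin m => (π.symm i : Fin n)))
    (Sym2.map.injective hinj) (fun z => Φ (graphOf z))
  rw [← h]
  refine Finset.sum_congr rfl fun x _ => ?_
  congr 2
  ext i j
  simp only [relabel, SimpleGraph.comap_adj, graphOf_adj, Function.comp, Sym2.map_mk]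
  constructor
  · rintro ⟨h1, h2⟩
    exact ⟨fun h => h1 (by rw [h]), h2⟩
  · rintro ⟨h1, h2⟩
    exact ⟨fun h => h1 (hinj h), h2⟩

end Pool.Agent.Helper17.ER
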