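import Mathlib
import Pool.Agent.Helper17.ER.Defs
import Pool.Agent.Helper17.ER.Weights
import Pool.Agent.Helper17.ER.Bridge

/-! Upper bounds for the success probability of an arbitrary estimator. -/

open scoped BigOperators

namespace Pool.Agent.Helper17.ER

open Classical in
/-- Number of automorphisms. -/
noncomputable def aut {m : ℕ} (F : SimpleGraph (Fin m)) : ℕ :=
  (Finset.univ.filter (fun σ : Equiv.Perm (Fin m) => F.comap σ = F)).card

open Classical in
/-- Number of relabellings of `G[S]` equal to `F`. -/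
noncomputable def cnt {n m : ℕ} (G : SimpleGraph (Fin n)) (F : SimpleGraph (Fin m))
    (S : Finset (Fin n)) : ℕ :=
  (Finset.univ.filter (fun π : {x : Fin n // x ∈ S} ≃ Fin m => relabel G S π = F)).card

theorem relabel_trans {n m : ℕ} (G : SimpleGraph (Fin n)) (S : Finset (Fin n))
    (π : {x : Fin n // x ∈ S} ≃ Fin m) (σ : Equiv.Perm (Fin m)) :
    relabel G S (π.trans σ.symm) = (relabel G S π).comap σ := by
  ext i j
  simp [relabel]

open Classical in
theorem cnt_eq {n m : ℕ} (G : SimpleGraph (Fin n)) (F : SimpleGraph (Fin m))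
    (S : Finset (Fin n)) (π : {x : Fin n // x ∈ S} ≃ Fin m) (h : relabel G S π = F) :
    cnt G F S = aut F := by
  unfold cnt aut
  symm
  refine Finset.card_bij' (fun σ _ => π.trans σ.symm) (fun ψ _ => (π.symm.trans ψ).symm)
    ?_ ?_ ?_ ?_
  · intro σ hσ
    simp only [Finset.mem_filter, Finset.mem_univ, true_and] at hσ ⊢
    rw [relabel_trans, h, hσ]
  · intro ψ hψ
    simp only [Finset.mem_filter, Finset.mem_univ, true_and] at hψ ⊢
    have h2 := relabel_trans G S π ((π.symm.trans ψ).symm)
    have h3 : π.trans ((π.symm.trans ψ).symm).symm = ψ := by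
      ext x; simp
    rw [h3, hψ, h] at h2
    exact h2.symm
  · intro σ _
    ext x; simp
  · intro ψ _
    ext x; simp

theorem cnt_le {n m : ℕ} (G : SimpleGraph (Fin n)) (F : SimpleGraph (Fin m))
    (S : Finset (Fin n)) : cnt G F S ≤ aut F := by
  classical
  by_cases h : cnt G F S = 0
  · rw [h]; exact Nat.zero_le _
  · unfold cnt at h
    rw [Finset.card_eq_zero] at h
    obtain ⟨π, hπ⟩ := Finset.nonempty_iff_ne_empty.2 h
    simp only [Finset.mem_filter, Finset.mem_univ, true_and] at hπ
    exact (cnt_eq G F S π hπ).le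

theorem aut_pos {m : ℕ} (F : SimpleGraph (Fin m)) : 1 ≤ aut F := by
  classical
  unfold aut
  refine Finset.card_pos.2 ⟨1, ?_⟩
  simp only [Finset.mem_filter, Finset.mem_univ, true_and]
  ext i j; simp

theorem aut_le_factorial {m : ℕ} (F : SimpleGraph (Fin m)) : aut F ≤ m.factorial := by
  classical
  unfold aut
  refine (Finset.card_filter_le _ _).trans ?_
  rw [Finset.card_univ, Fintype.card_perm, Fintype.card_fin]

section est
variable {n m : ℕ} (A : Estimator n m)

/-- Real-valued weight. -/
noncomputable def est (G : SimpleGraph (Fin n)) (F : SimpleGraph (Fin m))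
    (S : {S : Finset (Fin n) // S.card = m}) : ℝ := (A G F S).toReal

theorem est_nonneg (G : SimpleGraph (Fin n)) (F : SimpleGraph (Fin m))
    (S : {S : Finset (Fin n) // S.card = m}) : 0 ≤ est A G F S := ENNReal.toReal_nonneg

theorem sum_est (G : SimpleGraph (Fin n)) (F : SimpleGraph (Fin m)) :
    ∑ S, est A G F S = 1 := by
  unfold est
  rw [← ENNReal.toReal_sum (fun S _ => PMF.apply_ne_top _ _)]
  have h := PMF.tsum_coe (A G F)
  rw [tsum_fintype] at h
  rw [h]; rfl

theorem est_le_one (G : SimpleGraph (Fin n)) (F : SimpleGraph (Fin m))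
    (S : {S : Finset (Fin n) // S.card = m}) : est A G F S ≤ 1 := by
  rw [← sum_est A G F]
  exact Finset.single_le_sum (f := fun S => est A G F S) (fun S _ => est_nonneg A G F S)
    (Finset.mem_univ S)

open Classical in
theorem sum_relabel (G : SimpleGraph (Fin n)) (S : Finset (Fin n))
    (g : SimpleGraph (Fin m) → ℝ) :
    ∑ π : ({x : Fin n // x ∈ S} ≃ Fin m), g (relabel G S π) =
      ∑ F : SimpleGraph (Fin m), (cnt G F S : ℝ) * g F := by
  rw [← Finset.sum_fiberwise (s := Finset.univ) (g := fun π => relabel G S π)]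
  refine Finset.sum_congr rfl fun F _ => ?_
  rw [Finset.sum_congr rfl (g := fun _ => g F)]
  · rw [Finset.sum_const, nsmul_eq_mul]
    rfl
  · intro π hπ
    simp only [Finset.mem_filter, Finset.mem_univ, true_and] at hπ
    rw [hπ]

open Classical in
theorem score_eq (G : SimpleGraph (Fin n)) :
    ∑ S : {S : Finset (Fin n) // S.card = m}, ∑ π : ({x : Fin n // x ∈ S.1} ≃ Fin m),
      est A G (relabel G S.1 π) S =
    ∑ F : SimpleGraph (Fin m), ∑ S : {S : Finset (Fin n) // S.card = m},
      (cnt G F S.1 : ℝ) * est A G F S := by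
  rw [Finset.sum_comm]
  refine Finset.sum_congr rfl fun S _ => ?_
  exact sum_relabel G S.1 (fun F => est A G F S)

/-- For fixed observation the score is at most the number of automorphisms. -/
theorem score_le_aut (G : SimpleGraph (Fin n)) (F : SimpleGraph (Fin m)) :
    ∑ S : {S : Finset (Fin n) // S.card = m}, (cnt G F S.1 : ℝ) * est A G F S ≤ aut F := by
  calc ∑ S : {S : Finset (Fin n) // S.card = m}, (cnt G F S.1 : ℝ) * est A G F S
      ≤ ∑ S : {S : Finset (Fin n) // S.card = m}, (aut F : ℝ) * est A G F S := by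
        refine Finset.sum_le_sum fun S _ => ?_
        refine mul_le_mul_of_nonneg_right ?_ (est_nonneg A G F S)
        exact_mod_cast cnt_le G F S.1
    _ = aut F := by rw [← Finset.mul_sum, sum_est, mul_one]

end est

/-- `G[S]` has a swap partner: some `u ∈ S` and `v ∉ S` have the same neighbours in
`S` apart from `u`. -/
def Good {n : ℕ} (G : SimpleGraph (Fin n)) (S : Finset (Fin n)) : Prop :=
  ∃ u ∈ S, ∃ v, v ∉ S ∧ ∀ j ∈ S, j ≠ u → (G.Adj u j ↔ G.Adj v j)

/-- A good set has a partner with an isomorphic induced graph. -/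
theorem exists_partner {n m : ℕ} (G : SimpleGraph (Fin n)) (F : SimpleGraph (Fin m))
    (S : {S : Finset (Fin n) // S.card = m}) (hS : Good G S.1) (hF : cnt G F S.1 ≠ 0) :
    ∃ S' : {S : Finset (Fin n) // S.card = m}, S' ≠ S ∧ cnt G F S'.1 ≠ 0 := by
  classical
  unfold cnt at hF
  rw [Ne, Finset.card_eq_zero] at hF
  obtain ⟨π, hπ⟩ := Finset.nonempty_iff_ne_empty.2 hF
  simp only [Finset.mem_filter, Finset.mem_univ, true_and] at hπ
  obtain ⟨u, hu, v, hv, huv⟩ := hS
  have hne : u ≠ v := fun h => hv (h ▸ hu)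
  -- the transposition
  let τ : Equiv.Perm (Fin n) := Equiv.swap u v
  let S1 : Finset (Fin n) := S.1.map τ.toEmbedding
  have hS1 : S1.card = m := by rw [Finset.card_map]; exact S.2
  have hmem : ∀ x, x ∈ S1 ↔ τ x ∈ S.1 := by
    intro x
    simp only [S1, Finset.mem_map_equiv]
    have : τ.symm = τ := Equiv.symm_swap u v
    rw [this]
  refine ⟨⟨S1, hS1⟩, ?_, ?_⟩
  · intro h
    have h1 : S1 = S.1 := congrArg Subtype.val h
    have h2 : v ∈ S1 := by rw [hmem]; simp [τ, hu]
    rw [h1] at h2
    exact hv h2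
  · let e : {x : Fin n // x ∈ S1} ≃ {x : Fin n // x ∈ S.1} :=
      τ.subtypeEquiv (fun x => hmem x)
    have he : ∀ i : {x : Fin n // x ∈ S.1}, ((e.symm i : {x : Fin n // x ∈ S1}) : Fin n) = τ i := by
      intro i
      have h3 : τ.symm = τ := Equiv.symm_swap u v
      change τ.symm i = τ i
      rw [h3]
    have hrel : relabel G S1 (e.trans π) = F := by
      rw [← hπ]
      ext i j
      simp only [relabel, SimpleGraph.comap_adj, Equiv.symm_trans_apply, he]
      generalize hx : π.symm i = x
      generalize hy : π.symm j = y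
      obtain ⟨x, hxS⟩ := x
      obtain ⟨y, hyS⟩ := y
      simp only
      have hτ : ∀ z ∈ S.1, z ≠ u → τ z = z := by
        intro z hz hzu
        exact Equiv.swap_apply_of_ne_of_ne hzu (fun h => hv (h ▸ hz))
      have hτu : τ u = v := Equiv.swap_apply_left u v
      by_cases hxu : x = u
      · by_cases hyu : y = u
        · subst hxu; subst hyu; simp
        · subst hxu
          rw [hτu, hτ y hyS hyu]
          exact (huv y hyS hyu).symm
      · by_cases hyu : y = u
        · subst hyu
          rw [hτu, hτ x hxS hxu, G.adj_comm, G.adj_comm x]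
          exact (huv x hxS hxu).symm
        · rw [hτ x hxS hxu, hτ y hyS hyu]
    unfold cnt
    rw [Ne, Finset.card_eq_zero]
    refine Finset.nonempty_iff_ne_empty.1 ⟨e.trans π, ?_⟩
    simp only [Finset.mem_filter, Finset.mem_univ, true_and]
    exact hrel

open Classical in
/-- The swap bound for a fixed observation. -/
theorem score_le_swap {n m : ℕ} (A : Estimator n m) (G : SimpleGraph (Fin n))
    (F : SimpleGraph (Fin m)) :
    ∑ S : {S : Finset (Fin n) // S.card = m}, (cnt G F S.1 : ℝ) * est A G F S ≤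
      ∑ S : {S : Finset (Fin n) // S.card = m}, (cnt G F S.1 : ℝ) *
        (1 - (1 / 2) * (if Good G S.1 then 1 else 0)) := by
  by_cases h : ∃ S : {S : Finset (Fin n) // S.card = m}, Good G S.1 ∧ cnt G F S.1 ≠ 0
  · obtain ⟨S, hS, hc⟩ := h
    obtain ⟨S', hne, hc'⟩ := exists_partner G F S hS hc
    have hval : ∀ T : Finset (Fin n), cnt G F T ≠ 0 → cnt G F T = aut F := by
      intro T hT
      unfold cnt at hT
      rw [Ne, Finset.card_eq_zero] at hT
      obtain ⟨π, hπ⟩ := Finset.nonempty_iff_ne_empty.2 hT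
      simp only [Finset.mem_filter, Finset.mem_univ, true_and] at hπ
      exact cnt_eq G F T π hπ
    refine (score_le_aut A G F).trans ?_
    have h1 : (2 * aut F : ℝ) ≤ ∑ S : {S : Finset (Fin n) // S.card = m}, (cnt G F S.1 : ℝ) := by
      have h2 : ∑ T ∈ ({S, S'} : Finset {S : Finset (Fin n) // S.card = m}), (cnt G F T.1 : ℝ) ≤
          ∑ T : {S : Finset (Fin n) // S.card = m}, (cnt G F T.1 : ℝ) :=
        Finset.sum_le_sum_of_subset_of_nonneg (Finset.subset_univ _)
          (fun _ _ _ => Nat.cast_nonneg _)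
      rw [Finset.sum_pair hne.symm, hval _ hc, hval _ hc'] at h2
      linarith
    calc (aut F : ℝ) ≤ ∑ T : {S : Finset (Fin n) // S.card = m}, (cnt G F T.1 : ℝ) * (1 / 2) := by
          rw [← Finset.sum_mul]; linarith
      _ ≤ _ := by
          refine Finset.sum_le_sum fun T _ => ?_
          refine mul_le_mul_of_nonneg_left ?_ (Nat.cast_nonneg _)
          split_ifs <;> norm_num
  · push Not at h
    refine Finset.sum_le_sum fun S _ => ?_
    by_cases hg : Good G S.1
    · rw [h S hg]; simp
    · simp only [hg, if_false, mul_zero, sub_zero]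
      exact mul_le_mul_of_nonneg_left (est_le_one A G F S) (Nat.cast_nonneg _)

theorem erMass_nonneg {n : ℕ} {p : ℝ} (hp0 : 0 ≤ p) (hp1 : p ≤ 1) (G : SimpleGraph (Fin n)) :
    0 ≤ erMass n p G :=
  mul_nonneg (pow_nonneg hp0 _) (pow_nonneg (by linarith) _)

theorem successProb_eq {n m : ℕ} (p : ℝ) (A : Estimator n m) :
    successProb n m p A = ∑ G : SimpleGraph (Fin n), erMass n p G *
      ((1 / ((n.choose m : ℝ) * (m.factorial : ℝ))) *
        ∑ F : SimpleGraph (Fin m), ∑ S : {S : Finset (Fin n) // S.card = m},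
          (cnt G F S.1 : ℝ) * est A G F S) := by
  unfold successProb
  refine Finset.sum_congr rfl fun G _ => ?_
  congr 1
  rw [← score_eq A G, Finset.mul_sum]
  refine Finset.sum_congr rfl fun S _ => ?_
  rw [← Finset.mul_sum, ← mul_assoc]
  congr 1
  rw [one_div_mul_one_div]

end Pool.Agent.Helper17.ER
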