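import Mathlib
import Pool.Agent.Helper17.ER.Defs
import Pool.Agent.Helper17.ER.Weights
import Pool.Agent.Helper17.ER.Bridge
import Pool.Agent.Helper17.ER.Success

/-! The expected number of automorphisms. -/

open scoped BigOperators

namespace Pool.Agent.Helper17.ER

/-- Matching argument. -/
theorem exists_disjoint_shift {E : Type*} [Fintype E] [DecidableEq E] (τ : Equiv.Perm E)
    (M : Finset E) (hM : ∀ e ∈ M, τ e ≠ e) :
    ∃ D ⊆ M, (∀ e ∈ D, τ e ∉ D) ∧ M.card ≤ 3 * D.card := by
  classical
  let C : Finset (Finset E) := M.powerset.filter (fun D => ∀ e ∈ D, τ e ∉ D)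
  have hC : C.Nonempty := ⟨∅, by simp [C]⟩
  obtain ⟨D, hD, hmax⟩ := Finset.exists_max_image C Finset.card hC
  simp only [C, Finset.mem_filter, Finset.mem_powerset] at hD hmax
  refine ⟨D, hD.1, hD.2, ?_⟩
  have hsub : M ⊆ D ∪ (D.map τ.toEmbedding ∪ D.map τ.symm.toEmbedding) := by
    intro e he
    by_contra hcon
    simp only [Finset.mem_union, Finset.mem_map_equiv, Equiv.symm_symm, not_or] at hcon
    obtain ⟨h1, h2, h3⟩ := hcon
    have h4 := hmax (insert e D) ⟨Finset.insert_subset he hD.1, ?_⟩
    · rw [Finset.card_insert_of_notMem h1] at h4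
      omega
    · intro f hf
      rw [Finset.mem_insert] at hf
      rw [Finset.mem_insert, not_or]
      rcases hf with rfl | hf
      · exact ⟨hM _ he, h3⟩
      · refine ⟨?_, hD.2 f hf⟩
        intro h5
        apply h2
        rw [← h5]; simpa using hf
  calc M.card ≤ (D ∪ (D.map τ.toEmbedding ∪ D.map τ.symm.toEmbedding)).card :=
        Finset.card_le_card hsub
    _ ≤ D.card + ((D.map τ.toEmbedding).card + (D.map τ.symm.toEmbedding).card) :=
        (Finset.card_union_le _ _).trans (Nat.add_le_add_left (Finset.card_union_le _ _) _)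
    _ = 3 * D.card := by rw [Finset.card_map, Finset.card_map]; ring

/-- Probability that prescribed disjoint pairs of coordinates agree. -/
theorem sum_w_agree {E : Type*} [Fintype E] [DecidableEq E] (p : ℝ) (τ : Equiv.Perm E)
    (D : Finset E) (hD : ∀ e ∈ D, τ e ∉ D) :
    ∑ x : E → Bool, w p x * (if ∀ e ∈ D, x e = x (τ e) then (1 : ℝ) else 0) =
      (p ^ 2 + (1 - p) ^ 2) ^ D.card := by
  classical
  let ρ : {e // e ∈ D} × Bool → E := fun q => if q.2 then τ q.1.1 else q.1.1
  have hρ : Function.Injective ρ := by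
    rintro ⟨⟨e, he⟩, b⟩ ⟨⟨f, hf⟩, c⟩ h
    cases b <;> cases c
    · simp only [ρ] at h
      simp at h
      subst h; rfl
    · simp only [ρ] at h
      simp at h
      exact absurd (h ▸ he) (hD f hf)
    · simp only [ρ] at h
      simp at h
      exact absurd (h ▸ hf) (hD e he)
    · simp only [ρ] at h
      simp at h
      subst h; rfl
  have h1 := sum_w_marginal (p := p) ρ hρ
    (fun z => ∏ e : {e // e ∈ D}, (fun (_ : {e // e ∈ D}) (t : Bool → Bool) =>
      if t false = t true then (1 : ℝ) else 0) e (fun b => z (e, b)))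
  rw [sum_w_rows (fun (_ : {e // e ∈ D}) (t : Bool → Bool) =>
      if t false = t true then (1 : ℝ) else 0)] at h1
  have h2 : ∑ t : Bool → Bool, w p t * (if t false = t true then (1 : ℝ) else 0) =
      p ^ 2 + (1 - p) ^ 2 := by
    have h3 := Fintype.sum_equiv (Equiv.boolArrowEquivProd Bool)
      (fun t : Bool → Bool => w p t * (if t false = t true then (1 : ℝ) else 0))
      (fun q : Bool × Bool => ((if q.2 then p else 1 - p) * (if q.1 then p else 1 - p)) *
        (if q.1 = q.2 then (1 : ℝ) else 0)) (by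
          intro t
          simp [w])
    rw [h3, Fintype.sum_prod_type]
    simp
    ring
  simp only [h2, Finset.prod_const, Finset.card_univ, Fintype.card_coe] at h1
  rw [← h1]
  refine Finset.sum_congr rfl fun x _ => ?_
  congr 1
  by_cases h : ∀ e ∈ D, x e = x (τ e)
  · rw [if_pos h]
    symm
    refine Finset.prod_eq_one fun e _ => ?_
    rw [if_pos]
    simp only [Function.comp, ρ]
    simpa using h e.1 e.2
  · rw [if_neg h]
    push Not at h
    obtain ⟨e, he, hx⟩ := h
    symm
    refine Finset.prod_eq_zero (Finset.mem_univ (⟨e, he⟩ : {e // e ∈ D})) ?_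
    rw [if_neg]
    simp only [Function.comp, ρ]
    simpa using hx

/-- Moved pairs. -/
theorem card_moved_pairs {m : ℕ} (σ : Equiv.Perm (Fin m)) :
    σ.support.card * (m - 2) ≤
      2 * (Finset.univ.filter (fun e : Sym2 (Fin m) => ¬ e.IsDiag ∧ e.map σ ≠ e)).card := by
  classical
  let P : Finset (Fin m × Fin m) := σ.support.biUnion (fun u =>
    ((Finset.univ.erase u).erase (σ u)).map ⟨fun v => (u, v), fun a b h => by simpa using h⟩)
  have hP : P.card = σ.support.card * (m - 2) := by
    rw [Finset.card_biUnion]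
    · rw [Finset.sum_congr rfl (g := fun _ => m - 2), Finset.sum_const, smul_eq_mul]
      intro u hu
      rw [Finset.card_map, Finset.card_erase_of_mem, Finset.card_erase_of_mem (Finset.mem_univ _),
        Finset.card_univ, Fintype.card_fin]
      · rfl
      · rw [Finset.mem_erase]
        exact ⟨Equiv.Perm.mem_support.1 hu, Finset.mem_univ _⟩
    · intro u _ u' _ huu
      rw [Function.onFun, Finset.disjoint_left]
      intro q hq hq'
      simp only [Finset.mem_map, Function.Embedding.coeFn_mk] at hq hq'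
      obtain ⟨v, _, rfl⟩ := hq
      obtain ⟨v', _, h⟩ := hq'
      exact huu (by simpa using (congrArg Prod.fst h).symm)
  rw [← hP]
  have hmaps : ∀ q ∈ P, s(q.1, q.2) ∈
      (Finset.univ.filter (fun e : Sym2 (Fin m) => ¬ e.IsDiag ∧ e.map σ ≠ e)) := by
    intro q hq
    simp only [P, Finset.mem_biUnion, Finset.mem_map, Function.Embedding.coeFn_mk,
      Finset.mem_erase, Finset.mem_univ, and_true] at hq
    obtain ⟨u, hu, v, ⟨hv1, hv2⟩, rfl⟩ := hq
    rw [Equiv.Perm.mem_support] at hu
    simp only [Finset.mem_filter, Finset.mem_univ, true_and]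
    refine ⟨?_, ?_⟩
    · rw [Sym2.mk_isDiag_iff]; exact Ne.symm hv2
    · rw [Sym2.map_mk, Ne, Sym2.eq_iff]
      rintro (⟨h, _⟩ | ⟨h, _⟩)
      · exact hu h
      · exact hv1 h.symm
  have h := Finset.card_le_mul_card_image_of_maps_to hmaps 2 (by
    intro e _
    induction e using Sym2.ind with
    | _ i j =>
      refine (Finset.card_le_card (t := {(i, j), (j, i)}) ?_).trans Finset.card_le_two
      intro q hq
      rw [Finset.mem_filter] at hq
      have h2 := hq.2
      rw [Sym2.eq_iff] at h2
      rw [Finset.mem_insert, Finset.mem_singleton]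
      rcases h2 with ⟨h3, h4⟩ | ⟨h3, h4⟩
      · left; exact Prod.ext h3 h4
      · right; exact Prod.ext h3 h4)
  exact h

theorem perm_support_count {m : ℕ} (T : Finset (Fin m)) :
    (Finset.univ.filter (fun σ : Equiv.Perm (Fin m) => σ.support = T)).card ≤ T.card.factorial := by
  classical
  have h1 : Fintype.card {f : Equiv.Perm (Fin m) // ∀ a, ¬ (a ∈ T) → f a = a} = T.card.factorial := by
    rw [← Fintype.card_congr (Equiv.Perm.subtypeEquivSubtypePerm (fun a => a ∈ T)),
      Fintype.card_perm, Fintype.card_coe]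
  rw [← h1, Fintype.card_subtype]
  refine Finset.card_le_card ?_
  intro σ hσ
  simp only [Finset.mem_filter, Finset.mem_univ, true_and] at hσ ⊢
  intro a ha
  rw [← hσ, Equiv.Perm.mem_support, not_not] at ha
  exact ha

theorem sum_perm_pow_le {m : ℕ} (hm : 1 ≤ m) :
    ∑ σ : Equiv.Perm (Fin m), (1 / (m : ℝ)) ^ σ.support.card ≤ m + 1 := by
  classical
  have hm0 : (0 : ℝ) < m := by exact_mod_cast hm
  rw [← Finset.sum_fiberwise (s := Finset.univ) (g := fun σ : Equiv.Perm (Fin m) => σ.support)]
  calc ∑ T : Finset (Fin m), ∑ σ ∈ Finset.univ.filter (fun σ : Equiv.Perm (Fin m) => σ.support = T),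
        (1 / (m : ℝ)) ^ σ.support.card
      ≤ ∑ T : Finset (Fin m), (T.card.factorial : ℝ) * (1 / (m : ℝ)) ^ T.card := by
        refine Finset.sum_le_sum fun T _ => ?_
        rw [Finset.sum_congr rfl (g := fun _ => (1 / (m : ℝ)) ^ T.card)]
        · rw [Finset.sum_const, nsmul_eq_mul]
          refine mul_le_mul_of_nonneg_right ?_ (by positivity)
          exact_mod_cast perm_support_count T
        · intro σ hσ
          rw [Finset.mem_filter] at hσ
          rw [hσ.2]
    _ = ∑ s ∈ Finset.range (m + 1), (m.choose s : ℝ) * ((s.factorial : ℝ) * (1 / (m : ℝ)) ^ s) := by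
        have h := Finset.sum_powerset_apply_card (fun s => (s.factorial : ℝ) * (1 / (m : ℝ)) ^ s)
          (x := (Finset.univ : Finset (Fin m)))
        rw [Finset.powerset_univ, Finset.card_univ, Fintype.card_fin] at h
        rw [h]
        simp only [nsmul_eq_mul]
    _ ≤ ∑ s ∈ Finset.range (m + 1), (1 : ℝ) := by
        refine Finset.sum_le_sum fun s _ => ?_
        have h1 : (m.choose s : ℝ) * (s.factorial : ℝ) ≤ (m : ℝ) ^ s := by
          have h2 := Nat.descFactorial_le_pow m s
          rw [Nat.descFactorial_eq_factorial_mul_choose] at h2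
          have h3 : ((s.factorial * m.choose s : ℕ) : ℝ) ≤ ((m ^ s : ℕ) : ℝ) := by exact_mod_cast h2
          push_cast at h3
          linarith
        rw [← mul_assoc, one_div, inv_pow]
        rw [mul_inv_le_iff₀ (by positivity)]
        linarith
    _ = m + 1 := by simp

open Classical in
/-- Probability that a permutation is an automorphism. -/
theorem prob_aut_le {m : ℕ} {p : ℝ} (hp0 : 0 ≤ p) (hp1 : p ≤ 1) (hm : 2 ≤ m)
    (hpm : Real.log m ≤ p * (1 - p) * ((m : ℝ) - 2) / 3) (σ : Equiv.Perm (Fin m)) :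
    ∑ F : SimpleGraph (Fin m), erMass m p F * (if F.comap σ = F then (1 : ℝ) else 0) ≤
      (1 / (m : ℝ)) ^ σ.support.card := by
  have hm0 : (0 : ℝ) < m := by
    have : 0 < m := by omega
    exact_mod_cast this
  rw [sum_erMass m p (fun F => if F.comap σ = F then (1 : ℝ) else 0)]
  let τ : Equiv.Perm (Sym2 (Fin m)) :=
    { toFun := Sym2.map σ
      invFun := Sym2.map σ.symm
      left_inv := by
        intro e
        rw [Sym2.map_map]
        have : (σ.symm : Fin m → Fin m) ∘ σ = id := by ext i; simp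
        rw [this, Sym2.map_id]; rfl
      right_inv := by
        intro e
        rw [Sym2.map_map]
        have : (σ : Fin m → Fin m) ∘ σ.symm = id := by ext i; simp
        rw [this, Sym2.map_id]; rfl }
  have hτ : ∀ e, τ e = e.map σ := fun e => rfl
  obtain ⟨D, hDM, hD, hcard⟩ := exists_disjoint_shift τ
    (Finset.univ.filter (fun e : Sym2 (Fin m) => ¬ e.IsDiag ∧ e.map σ ≠ e)) (by
      intro e he
      rw [Finset.mem_filter] at he
      exact he.2.2)
  have hM := card_moved_pairs σ
  have hDs : σ.support.card * (m - 2) ≤ 6 * D.card := by omega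
  have h1 : ∑ x : Sym2 (Fin m) → Bool, w p x *
      (if (graphOf x).comap σ = graphOf x then (1 : ℝ) else 0) ≤
      (p ^ 2 + (1 - p) ^ 2) ^ D.card := by
    rw [← sum_w_agree p τ D hD]
    refine Finset.sum_le_sum fun x _ => ?_
    refine mul_le_mul_of_nonneg_left ?_ (w_nonneg hp0 hp1 x)
    by_cases h : (graphOf x).comap σ = graphOf x
    · rw [if_pos h, if_pos]
      intro e he
      have hd := hDM he
      rw [Finset.mem_filter] at hd
      have hd1 := hd.2.1
      rw [hτ]
      induction e using Sym2.ind with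
      | _ i j =>
        rw [Sym2.mk_isDiag_iff] at hd1
        rw [Sym2.map_mk]
        have h2 : ((graphOf x).comap σ).Adj i j ↔ (graphOf x).Adj i j := by rw [h]
        rw [SimpleGraph.comap_adj, graphOf_adj, graphOf_adj] at h2
        have h3 : σ i ≠ σ j := fun h => hd1 (σ.injective h)
        simp only [ne_eq, h3, not_false_eq_true, true_and, hd1] at h2
        cases hx : x s(i, j) <;> cases hy : x s(σ i, σ j) <;> simp_all
    · rw [if_neg h]
      split_ifs <;> norm_num
  refine h1.trans ?_
  have hb0 : 0 ≤ p ^ 2 + (1 - p) ^ 2 := by positivity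
  have hb1 : p ^ 2 + (1 - p) ^ 2 ≤ Real.exp (-(2 * p * (1 - p))) := by
    have := Real.add_one_le_exp (-(2 * p * (1 - p)))
    nlinarith
  have h2 : (p ^ 2 + (1 - p) ^ 2) ^ D.card ≤ Real.exp (-(2 * p * (1 - p)) * D.card) := by
    calc (p ^ 2 + (1 - p) ^ 2) ^ D.card ≤ (Real.exp (-(2 * p * (1 - p)))) ^ D.card :=
          pow_le_pow_left₀ hb0 hb1 _
      _ = Real.exp (-(2 * p * (1 - p)) * D.card) := by
          rw [← Real.exp_nat_mul]; ring_nf
  refine h2.trans ?_
  have h3 : (1 / (m : ℝ)) ^ σ.support.card = Real.exp (-(Real.log m) * σ.support.card) := by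
    rw [mul_comm, Real.exp_nat_mul, Real.exp_neg, Real.exp_log hm0, one_div]
  rw [h3, Real.exp_le_exp]
  have h4 : (σ.support.card : ℝ) * ((m : ℝ) - 2) ≤ 6 * D.card := by
    have : ((σ.support.card * (m - 2) : ℕ) : ℝ) ≤ ((6 * D.card : ℕ) : ℝ) := by exact_mod_cast hDs
    push_cast [Nat.cast_sub hm] at this
    exact this
  have hpp : 0 ≤ p * (1 - p) := mul_nonneg hp0 (by linarith)
  have h5 : Real.log m * σ.support.card ≤ p * (1 - p) * ((m : ℝ) - 2) / 3 * σ.support.card :=
    mul_le_mul_of_nonneg_right hpm (Nat.cast_nonneg _)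
  have h6 : p * (1 - p) * ((σ.support.card : ℝ) * ((m : ℝ) - 2)) ≤ p * (1 - p) * (6 * D.card) :=
    mul_le_mul_of_nonneg_left h4 hpp
  nlinarith

open Classical in
/-- The expected number of automorphisms. -/
theorem expect_aut_le {m : ℕ} {p : ℝ} (hp0 : 0 ≤ p) (hp1 : p ≤ 1) (hm : 2 ≤ m)
    (hpm : Real.log m ≤ p * (1 - p) * ((m : ℝ) - 2) / 3) :
    ∑ F : SimpleGraph (Fin m), erMass m p F * (aut F : ℝ) ≤ m + 1 := by
  have h1 : ∀ F : SimpleGraph (Fin m), erMass m p F * (aut F : ℝ) =
      ∑ σ : Equiv.Perm (Fin m), erMass m p F * (if F.comap σ = F then (1 : ℝ) else 0) := by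
    intro F
    rw [← Finset.mul_sum]
    congr 1
    unfold aut
    rw [Finset.sum_boole]
  simp only [h1]
  rw [Finset.sum_comm]
  exact (Finset.sum_le_sum fun σ _ => prob_aut_le hp0 hp1 hm hpm σ).trans
    (sum_perm_pow_le (by omega))

end Pool.Agent.Helper17.ER
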