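import Mathlib
import Pool.Agent.Helper17.ER.Defs
import Pool.Agent.Helper17.ER.Weights
import Pool.Agent.Helper17.ER.Bridge
import Pool.Agent.Helper17.ER.Success

/-! The two upper bounds for the success probability. -/

open scoped BigOperators

namespace Pool.Agent.Helper17.ER

theorem sum_erMass_one (n : ℕ) (p : ℝ) : ∑ G : SimpleGraph (Fin n), erMass n p G = 1 := by
  have h := sum_erMass n p (fun _ => 1)
  simp only [mul_one] at h
  rw [h, sum_w]

theorem card_subsets (n m : ℕ) :
    Fintype.card {S : Finset (Fin n) // S.card = m} = n.choose m := by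
  rw [Fintype.card_subtype]
  have h : (Finset.univ.filter (fun S : Finset (Fin n) => S.card = m)) =
      Finset.powersetCard m Finset.univ := by
    ext S; simp [Finset.mem_powersetCard]
  rw [h, Finset.card_powersetCard, Finset.card_univ, Fintype.card_fin]

theorem card_bij {n m : ℕ} (S : {S : Finset (Fin n) // S.card = m}) :
    Fintype.card ({x : Fin n // x ∈ S.1} ≃ Fin m) = m.factorial := by
  have e : {x : Fin n // x ∈ S.1} ≃ Fin m := by
    refine Fintype.equivFinOfCardEq ?_
    rw [Fintype.card_coe]; exact S.2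
  rw [Fintype.card_equiv e, Fintype.card_coe, S.2]

open Classical in
/-- Averages of relabelled functionals. -/
theorem avg_relabel {n m : ℕ} (hm : m ≤ n) (p : ℝ) (Φ : SimpleGraph (Fin m) → ℝ) :
    ∑ G : SimpleGraph (Fin n), erMass n p G *
      ((1 / ((n.choose m : ℝ) * (m.factorial : ℝ))) *
        ∑ F : SimpleGraph (Fin m), ∑ S : {S : Finset (Fin n) // S.card = m},
          (cnt G F S.1 : ℝ) * Φ F) = ∑ F : SimpleGraph (Fin m), erMass m p F * Φ F := by
  have h1 : ∀ G : SimpleGraph (Fin n), ∑ F : SimpleGraph (Fin m),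
      ∑ S : {S : Finset (Fin n) // S.card = m}, (cnt G F S.1 : ℝ) * Φ F =
      ∑ S : {S : Finset (Fin n) // S.card = m}, ∑ π : ({x : Fin n // x ∈ S.1} ≃ Fin m),
        Φ (relabel G S.1 π) := by
    intro G
    rw [Finset.sum_comm]
    refine Finset.sum_congr rfl fun S _ => ?_
    exact (sum_relabel G S.1 Φ).symm
  have hD : ((n.choose m : ℝ) * (m.factorial : ℝ)) ≠ 0 := by
    have h2 : 0 < n.choose m := Nat.choose_pos hm
    have h3 : 0 < m.factorial := Nat.factorial_pos m
    positivity
  calc _ = (1 / ((n.choose m : ℝ) * (m.factorial : ℝ))) * ∑ G : SimpleGraph (Fin n),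
        ∑ S : {S : Finset (Fin n) // S.card = m}, ∑ π : ({x : Fin n // x ∈ S.1} ≃ Fin m),
          erMass n p G * Φ (relabel G S.1 π) := by
        rw [Finset.mul_sum]
        refine Finset.sum_congr rfl fun G _ => ?_
        rw [h1 G]
        simp only [Finset.mul_sum]
        refine Finset.sum_congr rfl fun S _ => Finset.sum_congr rfl fun π _ => ?_
        ring
    _ = (1 / ((n.choose m : ℝ) * (m.factorial : ℝ))) *
        ∑ S : {S : Finset (Fin n) // S.card = m}, ∑ π : ({x : Fin n // x ∈ S.1} ≃ Fin m),
          ∑ F : SimpleGraph (Fin m), erMass m p F * Φ F := by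
        congr 1
        rw [Finset.sum_comm]
        refine Finset.sum_congr rfl fun S _ => ?_
        rw [Finset.sum_comm]
        refine Finset.sum_congr rfl fun π _ => ?_
        exact sum_erMass_relabel p S.1 π Φ
    _ = _ := by
        simp only [Finset.sum_const, Finset.card_univ, card_bij, card_subsets, nsmul_eq_mul]
        have h2 : (n.choose m : ℝ) ≠ 0 := left_ne_zero_of_mul hD
        have h3 : (m.factorial : ℝ) ≠ 0 := right_ne_zero_of_mul hD
        field_simp

open Classical in
/-- The counting bound. -/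
theorem success_le_counting {n m : ℕ} (hm : m ≤ n) {p : ℝ} (hp0 : 0 ≤ p) (hp1 : p ≤ 1)
    (A : Estimator n m) (T : SimpleGraph (Fin m) → Prop) :
    successProb n m p A ≤
      ∑ F : SimpleGraph (Fin m), erMass m p F * (if T F then 0 else 1) +
      (1 / ((n.choose m : ℝ) * (m.factorial : ℝ))) *
        ∑ F : SimpleGraph (Fin m), (if T F then (aut F : ℝ) else 0) := by
  have hD : 0 ≤ (1 / ((n.choose m : ℝ) * (m.factorial : ℝ))) := by positivity
  rw [successProb_eq, ← avg_relabel hm p (fun F => if T F then 0 else 1)]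
  have h1 : (1 / ((n.choose m : ℝ) * (m.factorial : ℝ))) *
        ∑ F : SimpleGraph (Fin m), (if T F then (aut F : ℝ) else 0) =
      ∑ G : SimpleGraph (Fin n), erMass n p G * ((1 / ((n.choose m : ℝ) * (m.factorial : ℝ))) *
        ∑ F : SimpleGraph (Fin m), (if T F then (aut F : ℝ) else 0)) := by
    rw [← Finset.sum_mul, sum_erMass_one, one_mul]
  rw [h1, ← Finset.sum_add_distrib]
  refine Finset.sum_le_sum fun G _ => ?_
  rw [← mul_add, ← mul_add, ← Finset.sum_add_distrib]
  refine mul_le_mul_of_nonneg_left ?_ (erMass_nonneg hp0 hp1 G)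
  refine mul_le_mul_of_nonneg_left ?_ hD
  refine Finset.sum_le_sum fun F _ => ?_
  by_cases hT : T F
  · simp only [hT, if_true, mul_zero, Finset.sum_const_zero, zero_add]
    exact score_le_aut A G F
  · simp only [hT, if_false, mul_one, add_zero]
    refine Finset.sum_le_sum fun S _ => ?_
    have h2 := est_le_one A G F S
    nlinarith [Nat.cast_nonneg (α := ℝ) (cnt G F S.1)]

open Classical in
/-- The swap bound. -/
theorem success_le_swap {n m : ℕ} (hm : m ≤ n) {p : ℝ} (hp0 : 0 ≤ p) (hp1 : p ≤ 1)
    (A : Estimator n m) {c : ℝ}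
    (hc : ∀ S : Finset (Fin n), S.card = m →
      c ≤ ∑ G : SimpleGraph (Fin n), erMass n p G * (if Good G S then 1 else 0)) :
    successProb n m p A ≤ 1 - c / 2 := by
  have hDpos : 0 < (n.choose m : ℝ) * (m.factorial : ℝ) := by
    have h2 : 0 < n.choose m := Nat.choose_pos hm
    have h3 : 0 < m.factorial := Nat.factorial_pos m
    positivity
  have hD : 0 ≤ (1 / ((n.choose m : ℝ) * (m.factorial : ℝ))) := by positivity
  rw [successProb_eq]
  have hsum : ∀ (G : SimpleGraph (Fin n)) (S : {S : Finset (Fin n) // S.card = m}),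
      ∑ F : SimpleGraph (Fin m), (cnt G F S.1 : ℝ) = m.factorial := by
    intro G S
    have h := sum_relabel (m := m) G S.1 (fun _ => 1)
    simp only [mul_one, Finset.sum_const, Finset.card_univ, card_bij, nsmul_eq_mul] at h
    exact h.symm
  calc _ ≤ ∑ G : SimpleGraph (Fin n), erMass n p G *
      ((1 / ((n.choose m : ℝ) * (m.factorial : ℝ))) *
        ∑ F : SimpleGraph (Fin m), ∑ S : {S : Finset (Fin n) // S.card = m},
          (cnt G F S.1 : ℝ) * (1 - (1 / 2) * (if Good G S.1 then 1 else 0))) := by
        refine Finset.sum_le_sum fun G _ => ?_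
        refine mul_le_mul_of_nonneg_left ?_ (erMass_nonneg hp0 hp1 G)
        refine mul_le_mul_of_nonneg_left ?_ hD
        exact Finset.sum_le_sum fun F _ => score_le_swap A G F
    _ = ∑ G : SimpleGraph (Fin n), erMass n p G *
      ((1 / ((n.choose m : ℝ) * (m.factorial : ℝ))) *
        ∑ S : {S : Finset (Fin n) // S.card = m},
          (m.factorial : ℝ) * (1 - (1 / 2) * (if Good G S.1 then 1 else 0))) := by
        refine Finset.sum_congr rfl fun G _ => ?_
        congr 2
        rw [Finset.sum_comm]
        refine Finset.sum_congr rfl fun S _ => ?_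
        rw [← Finset.sum_mul, hsum]
    _ = (1 / (n.choose m : ℝ)) * ∑ S : {S : Finset (Fin n) // S.card = m},
          ∑ G : SimpleGraph (Fin n),
            (erMass n p G - (1 / 2) * (erMass n p G * (if Good G S.1 then 1 else 0))) := by
        rw [Finset.sum_comm, Finset.mul_sum]
        refine Finset.sum_congr rfl fun G _ => ?_
        simp only [Finset.mul_sum]
        refine Finset.sum_congr rfl fun S _ => ?_
        have h2 : (n.choose m : ℝ) ≠ 0 := left_ne_zero_of_mul hDpos.ne'
        have h3 : (m.factorial : ℝ) ≠ 0 := right_ne_zero_of_mul hDpos.ne'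
        field_simp
    _ ≤ (1 / (n.choose m : ℝ)) * ∑ S : {S : Finset (Fin n) // S.card = m}, (1 - c / 2) := by
        refine mul_le_mul_of_nonneg_left ?_ (by positivity)
        refine Finset.sum_le_sum fun S _ => ?_
        rw [Finset.sum_sub_distrib, sum_erMass_one, ← Finset.mul_sum]
        have := hc S.1 S.2
        linarith
    _ = 1 - c / 2 := by
        rw [Finset.sum_const, Finset.card_univ, card_subsets, nsmul_eq_mul]
        have h2 : (n.choose m : ℝ) ≠ 0 := left_ne_zero_of_mul hDpos.ne'
        field_simp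

end Pool.Agent.Helper17.ER
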