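import Mathlib
import Pool.Agent.Helper17.ER.Defs
import Pool.Agent.Helper17.ER.Weights
import Pool.Agent.Helper17.ER.Bridge
import Pool.Agent.Helper17.ER.Success

/-! Lower bound for the probability of a swap partner. -/

open scoped BigOperators

namespace Pool.Agent.Helper17.ER

theorem w_eq_pow {E : Type*} [Fintype E] [DecidableEq E] (p : ℝ) (x : E → Bool) :
    w p x = p ^ (Finset.univ.filter (fun e => x e = true)).card *
      (1 - p) ^ (Fintype.card E - (Finset.univ.filter (fun e => x e = true)).card) := by
  unfold w
  rw [Finset.prod_ite]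
  simp only [Finset.prod_const]
  congr 2
  have h := Finset.card_filter_add_card_filter_not (s := (Finset.univ : Finset E))
    (fun e => x e = true)
  rw [Finset.card_univ] at h
  omega

/-- Binomial probabilities. -/
theorem sum_w_card {E : Type*} [Fintype E] [DecidableEq E] (p : ℝ) (r : ℕ) :
    ∑ x : E → Bool, w p x * (if (Finset.univ.filter (fun e => x e = true)).card = r
      then (1 : ℝ) else 0) =
      ((Fintype.card E).choose r : ℝ) * p ^ r * (1 - p) ^ (Fintype.card E - r) := by
  have h1 : ∀ x : E → Bool, w p x * (if (Finset.univ.filter (fun e => x e = true)).card = r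
      then (1 : ℝ) else 0) = (if (Finset.univ.filter (fun e => x e = true)).card = r
      then (p ^ r * (1 - p) ^ (Fintype.card E - r)) else 0) := by
    intro x
    split_ifs with h
    · rw [w_eq_pow, h, mul_one]
    · rw [mul_zero]
  simp only [h1]
  rw [← Finset.sum_filter, Finset.sum_const, nsmul_eq_mul, mul_assoc]
  congr 1
  have h2 : (Finset.univ.filter (fun x : E → Bool =>
      (Finset.univ.filter (fun e => x e = true)).card = r)).card =
      (Finset.powersetCard r (Finset.univ : Finset E)).card := by
    refine Finset.card_bij' (fun x _ => Finset.univ.filter (fun e => x e = true))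
      (fun s _ => fun e => decide (e ∈ s)) ?_ ?_ ?_ ?_
    · intro x hx
      simp only [Finset.mem_filter, Finset.mem_univ, true_and] at hx
      rw [Finset.mem_powersetCard]
      exact ⟨Finset.subset_univ _, hx⟩
    · intro s hs
      rw [Finset.mem_powersetCard] at hs
      simp only [Finset.mem_filter, Finset.mem_univ, true_and, decide_eq_true_eq]
      simpa using hs.2
    · intro x _
      ext e; simp
    · intro s _
      ext e; simp
  rw [h2, Finset.card_powersetCard, Finset.card_univ]

/-- Probability that a set of coordinates takes prescribed values. -/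
theorem sum_w_target {E : Type*} [Fintype E] [DecidableEq E] (p : ℝ) (t : E → Bool) (u : E) :
    ∑ x : E → Bool, w p x * (if ∀ j, j ≠ u → x j = t j then (1 : ℝ) else 0) =
      ∏ j ∈ Finset.univ.erase u, (if t j then p else 1 - p) := by
  have h1 : ∀ x : E → Bool, (if ∀ j, j ≠ u → x j = t j then (1 : ℝ) else 0) =
      ∏ j, (fun (j : E) (b : Bool) => if j ≠ u → b = t j then (1 : ℝ) else 0) j (x j) := by
    intro x
    by_cases h : ∀ j, j ≠ u → x j = t j
    · rw [if_pos h]
      symm
      refine Finset.prod_eq_one fun j _ => ?_
      simp only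
      rw [if_pos (h j)]
    · rw [if_neg h]
      push Not at h
      obtain ⟨j, hj, hx⟩ := h
      symm
      refine Finset.prod_eq_zero (Finset.mem_univ j) ?_
      simp only
      rw [if_neg]
      intro h'
      exact hx (h' hj)
  rw [Finset.sum_congr rfl (fun x _ => by rw [h1 x])]
  rw [sum_w_prod (fun (j : E) (b : Bool) => if j ≠ u → b = t j then (1 : ℝ) else 0)]
  rw [← Finset.mul_prod_erase _ _ (Finset.mem_univ u)]
  have h2 : (p * (if u ≠ u → true = t u then (1 : ℝ) else 0) +
      (1 - p) * (if u ≠ u → false = t u then (1 : ℝ) else 0)) = 1 := by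
    simp
  rw [h2, one_mul]
  refine Finset.prod_congr rfl fun j hj => ?_
  have hj' : j ≠ u := Finset.ne_of_mem_erase hj
  cases ht : t j <;> simp [hj']

theorem sum_w_false {E : Type*} [Fintype E] [DecidableEq E] (p : ℝ) :
    ∑ x : E → Bool, w p x * (if ∀ j, x j = false then (1 : ℝ) else 0) =
      (1 - p) ^ Fintype.card E := by
  have h1 : ∀ x : E → Bool, (if ∀ j, x j = false then (1 : ℝ) else 0) =
      ∏ j, (fun (_ : E) (b : Bool) => if b = false then (1 : ℝ) else 0) j (x j) := by
    intro x
    by_cases h : ∀ j, x j = false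
    · rw [if_pos h]
      symm
      refine Finset.prod_eq_one fun j _ => ?_
      simp only
      rw [if_pos (h j)]
    · rw [if_neg h]
      push Not at h
      obtain ⟨j, hj⟩ := h
      symm
      refine Finset.prod_eq_zero (Finset.mem_univ j) ?_
      simp only
      rw [if_neg hj]
  rw [Finset.sum_congr rfl (fun x _ => by rw [h1 x])]
  rw [sum_w_prod (fun (_ : E) (b : Bool) => if b = false then (1 : ℝ) else 0)]
  simp

/-- Probability that some row has a property. -/
theorem sum_w_exists_row {V J : Type*} [Fintype V] [DecidableEq V] [Fintype J] [DecidableEq J]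
    {p : ℝ} (P : (J → Bool) → Prop) [DecidablePred P] (q : ℝ)
    (hq : ∑ z : J → Bool, w p z * (if P z then (1 : ℝ) else 0) = q)
    [DecidablePred (fun x : V × J → Bool => ∃ v, P (fun j => x (v, j)))] :
    ∑ x : V × J → Bool, w p x * (if ∃ v, P (fun j => x (v, j)) then (1 : ℝ) else 0) =
      1 - (1 - q) ^ Fintype.card V := by
  have h1 : ∀ x : V × J → Bool, (if ∃ v, P (fun j => x (v, j)) then (1 : ℝ) else 0) =
      1 - ∏ v, (fun (_ : V) (z : J → Bool) => (1 : ℝ) - (if P z then (1 : ℝ) else 0)) v
        (fun j => x (v, j)) := by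
    intro x
    by_cases h : ∃ v, P (fun j => x (v, j))
    · rw [if_pos h]
      obtain ⟨v, hv⟩ := h
      rw [Finset.prod_eq_zero (Finset.mem_univ v)]
      · simp
      · simp only
        rw [if_pos hv]; simp
    · rw [if_neg h]
      push Not at h
      rw [Finset.prod_eq_one]
      · simp
      · intro v _
        simp only
        rw [if_neg (h v)]; simp
  rw [Finset.sum_congr rfl (fun x _ => by rw [h1 x])]
  simp only [mul_sub, mul_one]
  rw [Finset.sum_sub_distrib, sum_w]
  congr 1
  have h2 := sum_w_rows (V := V) (J := J) (p := p)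
    (fun (_ : V) (z : J → Bool) => (1 : ℝ) - (if P z then (1 : ℝ) else 0))
  rw [h2]
  simp only [mul_sub, mul_one]
  rw [Finset.sum_sub_distrib, sum_w, hq, Finset.prod_const, Finset.card_univ]

end Pool.Agent.Helper17.ER
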