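import Mathlib
import Pool.Agent.Helper17.ER.Defs
import Pool.Agent.Helper17.ER.Weights
import Pool.Agent.Helper17.ER.Bridge
import Pool.Agent.Helper17.ER.Success
import Pool.Agent.Helper17.ER.Swap

/-! Concentration of the log-likelihood (Chebyshev). -/

open scoped BigOperators

namespace Pool.Agent.Helper17.ER

open Classical in
theorem sum_edges (m : ℕ) (p : ℝ) (g : ℕ → ℝ) :
    ∑ F : SimpleGraph (Fin m), erMass m p F * g F.edgeSet.ncard =
      ∑ k ∈ Finset.range (m.choose 2 + 1),
        ((m.choose 2).choose k : ℝ) * p ^ k * (1 - p) ^ (m.choose 2 - k) * g k := by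
  rw [sum_erMass m p (fun F => g F.edgeSet.ncard)]
  let ρ : {e : Sym2 (Fin m) // ¬ e.IsDiag} → Sym2 (Fin m) := Subtype.val
  have hcE : Fintype.card {e : Sym2 (Fin m) // ¬ e.IsDiag} = m.choose 2 := by
    have := Sym2.card_subtype_not_diag (α := Fin m)
    rw [Fintype.card_fin] at this
    exact this
  have h1 := sum_w_marginal (p := p) ρ Subtype.val_injective
    (fun z => g (Finset.univ.filter (fun e => z e = true)).card)
  have h2 : ∀ x : Sym2 (Fin m) → Bool, (graphOf x).edgeSet.ncard =
      (Finset.univ.filter (fun e : {e : Sym2 (Fin m) // ¬ e.IsDiag} => (x ∘ ρ) e = true)).card := by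
    intro x
    have h3 : (graphOf x).edgeSet =
        (((Finset.univ.filter (fun e : {e : Sym2 (Fin m) // ¬ e.IsDiag} => (x ∘ ρ) e = true)).map
          (Function.Embedding.subtype _) : Finset (Sym2 (Fin m))) : Set (Sym2 (Fin m))) := by
      ext e
      induction e using Sym2.ind with
      | _ i j =>
        rw [SimpleGraph.mem_edgeSet, graphOf_adj]
        simp only [Finset.coe_map, Set.mem_image, Finset.mem_coe, Finset.mem_filter,
          Finset.mem_univ, true_and, Function.comp, ρ, Function.Embedding.subtype_apply]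
        constructor
        · rintro ⟨ha, hb⟩
          exact ⟨⟨s(i, j), by rwa [Sym2.mk_isDiag_iff]⟩, hb, rfl⟩
        · rintro ⟨e, he, h⟩
          refine ⟨?_, h ▸ he⟩
          have := e.2
          rw [h, Sym2.mk_isDiag_iff] at this
          exact this
    rw [h3, Set.ncard_coe_finset, Finset.card_map]
  simp only [h2]
  rw [h1]
  have h4 : ∀ z : {e : Sym2 (Fin m) // ¬ e.IsDiag} → Bool,
      w p z * g (Finset.univ.filter (fun e => z e = true)).card =
      ∑ k ∈ Finset.range (m.choose 2 + 1), (w p z *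
        (if (Finset.univ.filter (fun e => z e = true)).card = k then (1 : ℝ) else 0)) * g k := by
    intro z
    have hle : (Finset.univ.filter (fun e => z e = true)).card ≤ m.choose 2 := by
      rw [← hcE, ← Finset.card_univ]
      exact Finset.card_filter_le _ _
    rw [Finset.sum_eq_single (Finset.univ.filter (fun e => z e = true)).card]
    · simp
    · intro k _ hk
      rw [if_neg (Ne.symm hk)]; simp
    · intro h
      exact absurd (Finset.mem_range.2 (by omega)) h
  rw [Finset.sum_congr rfl (fun z _ => h4 z), Finset.sum_comm]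
  refine Finset.sum_congr rfl fun k _ => ?_
  rw [← Finset.sum_mul, sum_w_card, hcE]

theorem variance_edges (m : ℕ) (p : ℝ) :
    ∑ F : SimpleGraph (Fin m), erMass m p F *
      (((m.choose 2 : ℕ) : ℝ) * p - (F.edgeSet.ncard : ℝ)) ^ 2 =
      (m.choose 2 : ℕ) * p * (1 - p) := by
  rw [sum_edges m p (fun k => (((m.choose 2 : ℕ) : ℝ) * p - (k : ℝ)) ^ 2)]
  have h := congrArg (Polynomial.eval p) (bernsteinPolynomial.variance ℝ (m.choose 2))
  simp only [Polynomial.eval_finsetSum, Polynomial.eval_mul, Polynomial.eval_pow,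
    Polynomial.eval_sub, Polynomial.eval_X, Polynomial.eval_natCast,
    Polynomial.eval_one, bernsteinPolynomial, nsmul_eq_mul] at h
  rw [← h]
  refine Finset.sum_congr rfl fun k _ => ?_
  ring

/-- An elementary inequality. -/
theorem log_ratio_bound {p : ℝ} (hp0 : 0 < p) (hp1 : p < 1) :
    p * (1 - p) * (Real.log p - Real.log (1 - p)) ^ 2 ≤ 1 := by
  have key : ∀ t : ℝ, 0 < t → 1 ≤ t → (Real.log t) ^ 2 ≤ t := by
    intro t ht ht1
    have h1 : Real.log t ≤ Real.sqrt t := by
      set y := Real.sqrt (Real.sqrt t) with hy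
      have hy0 : 0 < y := Real.sqrt_pos.2 (Real.sqrt_pos.2 ht)
      have hy2 : y ^ 2 = Real.sqrt t := Real.sq_sqrt (Real.sqrt_nonneg _)
      have hy4 : y ^ 4 = t := by
        have : y ^ 4 = (y ^ 2) ^ 2 := by ring
        rw [this, hy2, Real.sq_sqrt ht.le]
      have h2 : Real.log t = 4 * Real.log y := by
        rw [← hy4, Real.log_pow]; norm_num
      have h3 := Real.log_le_sub_one_of_pos hy0
      rw [h2, ← hy2]
      nlinarith [sq_nonneg (y - 2)]
    have h0 : 0 ≤ Real.log t := Real.log_nonneg ht1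
    calc (Real.log t) ^ 2 ≤ (Real.sqrt t) ^ 2 := pow_le_pow_left₀ h0 h1 2
      _ = t := Real.sq_sqrt ht.le
  have hq : 0 < 1 - p := by linarith
  have key2 : ∀ a b : ℝ, 0 < a → 0 < b → a + b = 1 → a ≤ b → a * b * (Real.log a - Real.log b) ^ 2 ≤ 1 := by
    intro a b ha hb hab hle
    have h1 := key (b / a) (div_pos hb ha) ((one_le_div ha).2 hle)
    rw [Real.log_div hb.ne' ha.ne'] at h1
    have h2 : (Real.log a - Real.log b) ^ 2 ≤ b / a := by
      calc (Real.log a - Real.log b) ^ 2 = (Real.log b - Real.log a) ^ 2 := by ring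
        _ ≤ b / a := h1
    calc a * b * (Real.log a - Real.log b) ^ 2 ≤ a * b * (b / a) :=
          mul_le_mul_of_nonneg_left h2 (by positivity)
      _ = b ^ 2 := by field_simp
      _ ≤ 1 := by nlinarith
  rcases le_total p (1 - p) with h | h
  · exact key2 p (1 - p) hp0 hq (by ring) h
  · have := key2 (1 - p) p hq hp0 (by ring) h
    calc p * (1 - p) * (Real.log p - Real.log (1 - p)) ^ 2 =
        (1 - p) * p * (Real.log (1 - p) - Real.log p) ^ 2 := by ring
      _ ≤ 1 := this

open Classical in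
/-- Chebyshev for the log-likelihood. -/
theorem atypical_le {m : ℕ} (hm : 1 ≤ m) {p : ℝ} (hp0 : 0 < p) (hp1 : p < 1) {K : ℝ} (hK : 0 < K) :
    ∑ F : SimpleGraph (Fin m), erMass m p F *
      (if Real.exp (-((m.choose 2 : ℕ) * Real.binEntropy p + K * m)) ≤ erMass m p F
        then (0 : ℝ) else 1) ≤ 1 / (2 * K ^ 2) := by
  have hm0 : (0 : ℝ) < m := by exact_mod_cast hm
  have hq : 0 < 1 - p := by linarith
  have hKm : 0 < (K * m) ^ 2 := by positivity
  have hstep : ∀ F : SimpleGraph (Fin m), erMass m p F *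
      (if Real.exp (-((m.choose 2 : ℕ) * Real.binEntropy p + K * m)) ≤ erMass m p F
        then (0 : ℝ) else 1) ≤
      ((Real.log p - Real.log (1 - p)) ^ 2 / (K * m) ^ 2) * (erMass m p F *
        (((m.choose 2 : ℕ) : ℝ) * p - (F.edgeSet.ncard : ℝ)) ^ 2) := by
    intro F
    have hmass : 0 ≤ erMass m p F := erMass_nonneg hp0.le hp1.le F
    split_ifs with h
    · rw [mul_zero]; positivity
    · push Not at h
      have hle : F.edgeSet.ncard ≤ m.choose 2 := by
        have h3 : F.edgeSet ⊆ {e : Sym2 (Fin m) | ¬ e.IsDiag} := fun e he =>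
          F.not_isDiag_of_mem_edgeSet he
        have h4 := Set.ncard_le_ncard h3 (Set.toFinite _)
        have h5 : {e : Sym2 (Fin m) | ¬ e.IsDiag}.ncard = m.choose 2 := by
          have := Sym2.card_subtype_not_diag (α := Fin m)
          rw [Fintype.card_fin] at this
          rw [← this, ← Nat.card_eq_fintype_card]
          rfl
        omega
      have hpos : 0 < erMass m p F := mul_pos (pow_pos hp0 _) (pow_pos hq _)
      have hlog : Real.log (erMass m p F) = (F.edgeSet.ncard : ℝ) * Real.log p +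
          ((m.choose 2 : ℕ) - (F.edgeSet.ncard : ℝ)) * Real.log (1 - p) := by
        unfold erMass
        rw [Real.log_mul (pow_pos hp0 _).ne' (pow_pos hq _).ne', Real.log_pow, Real.log_pow,
          Nat.cast_sub hle]
      have h1 : Real.log (erMass m p F) < -((m.choose 2 : ℕ) * Real.binEntropy p + K * m) := by
        rw [Real.log_lt_iff_lt_exp hpos]
        exact h
      have hent : Real.binEntropy p = -(p * Real.log p) - (1 - p) * Real.log (1 - p) := by
        rw [Real.binEntropy, Real.log_inv, Real.log_inv]; ring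
      rw [hlog, hent] at h1
      have h2 : K * m < (((m.choose 2 : ℕ) : ℝ) * p - (F.edgeSet.ncard : ℝ)) *
          (Real.log p - Real.log (1 - p)) := by
        nlinarith
      have h3 : (K * m) ^ 2 ≤ (Real.log p - Real.log (1 - p)) ^ 2 *
          (((m.choose 2 : ℕ) : ℝ) * p - (F.edgeSet.ncard : ℝ)) ^ 2 := by
        have h4 : 0 ≤ K * m := by positivity
        calc (K * m) ^ 2 ≤ ((((m.choose 2 : ℕ) : ℝ) * p - (F.edgeSet.ncard : ℝ)) *
          (Real.log p - Real.log (1 - p))) ^ 2 := pow_le_pow_left₀ h4 h2.le 2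
          _ = _ := by ring
      have h5 : (1 : ℝ) ≤ ((Real.log p - Real.log (1 - p)) ^ 2 / (K * m) ^ 2) *
          (((m.choose 2 : ℕ) : ℝ) * p - (F.edgeSet.ncard : ℝ)) ^ 2 := by
        rw [div_mul_eq_mul_div, one_le_div hKm]
        exact h3
      calc erMass m p F * 1 ≤ erMass m p F * (((Real.log p - Real.log (1 - p)) ^ 2 / (K * m) ^ 2) *
          (((m.choose 2 : ℕ) : ℝ) * p - (F.edgeSet.ncard : ℝ)) ^ 2) :=
            mul_le_mul_of_nonneg_left h5 hmass
        _ = _ := by ring
  refine (Finset.sum_le_sum fun F _ => hstep F).trans ?_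
  rw [← Finset.mul_sum, variance_edges]
  have hb := log_ratio_bound hp0 hp1
  have hM : ((m.choose 2 : ℕ) : ℝ) ≤ (m : ℝ) ^ 2 / 2 := by
    rw [Nat.cast_choose_two]
    nlinarith
  have h6 : (Real.log p - Real.log (1 - p)) ^ 2 / (K * m) ^ 2 * ((m.choose 2 : ℕ) * p * (1 - p)) =
      ((m.choose 2 : ℕ) : ℝ) * (p * (1 - p) * (Real.log p - Real.log (1 - p)) ^ 2) / (K * m) ^ 2 := by
    ring
  rw [h6, div_le_div_iff₀ hKm (by positivity)]
  have hM0 : (0 : ℝ) ≤ ((m.choose 2 : ℕ) : ℝ) := Nat.cast_nonneg _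
  have h7 : ((m.choose 2 : ℕ) : ℝ) * (p * (1 - p) * (Real.log p - Real.log (1 - p)) ^ 2) ≤
      (m : ℝ) ^ 2 / 2 := by
    calc _ ≤ ((m.choose 2 : ℕ) : ℝ) * 1 := mul_le_mul_of_nonneg_left hb hM0
      _ ≤ _ := by linarith
  calc ((m.choose 2 : ℕ) : ℝ) * (p * (1 - p) * (Real.log p - Real.log (1 - p)) ^ 2) * (2 * K ^ 2) ≤
      (m : ℝ) ^ 2 / 2 * (2 * K ^ 2) := mul_le_mul_of_nonneg_right h7 (by positivity)
    _ = 1 * (K * m) ^ 2 := by ring

end Pool.Agent.Helper17.ER
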