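import Mathlib
import Pool.Agent.Helper17.ER.Defs
import Pool.Agent.Helper17.ER.Bounds
import Pool.Agent.Helper17.ER.AutBound
import Pool.Agent.Helper17.ER.Cheb

/-! The counting regimes. -/

open scoped BigOperators

namespace Pool.Agent.Helper17.ER

theorem descFactorial_ge : ∀ (m n : ℕ), m ≤ n →
    Real.exp ((m : ℝ) * (Real.log n - 1)) ≤ (n.descFactorial m : ℝ) := by
  intro m
  induction m with
  | zero => intro n _; simp
  | succ m ih =>
    intro n hn
    obtain ⟨k, rfl⟩ : ∃ k, n = k + 1 := ⟨n - 1, by omega⟩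
    have hk : m ≤ k := by omega
    rw [Nat.succ_descFactorial_succ]
    push_cast
    have hk1 : (0 : ℝ) < (k : ℝ) + 1 := by positivity
    rcases Nat.eq_zero_or_pos k with h0 | h0
    · subst h0
      have : m = 0 := by omega
      subst this
      simp
    · have hkpos : (0 : ℝ) < k := by exact_mod_cast h0
      have h1 := ih k hk
      have h2 : (m : ℝ) * (Real.log (k + 1) - Real.log k) ≤ 1 := by
        have h3 : Real.log (k + 1) - Real.log k ≤ 1 / k := by
          rw [← Real.log_div hk1.ne' hkpos.ne']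
          have := Real.log_le_sub_one_of_pos (div_pos hk1 hkpos)
          have h4 : ((k : ℝ) + 1) / k - 1 = 1 / k := by field_simp; ring
          linarith
        have hmk : (m : ℝ) ≤ k := by exact_mod_cast hk
        calc (m : ℝ) * (Real.log (k + 1) - Real.log k) ≤ (m : ℝ) * (1 / k) :=
              mul_le_mul_of_nonneg_left h3 (Nat.cast_nonneg _)
          _ ≤ k * (1 / k) := mul_le_mul_of_nonneg_right hmk (by positivity)
          _ = 1 := by field_simp
      calc Real.exp (((m : ℝ) + 1) * (Real.log (k + 1) - 1)) ≤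
          Real.exp (Real.log (k + 1) + (m : ℝ) * (Real.log k - 1)) := by
            rw [Real.exp_le_exp]; nlinarith
        _ = (k + 1) * Real.exp ((m : ℝ) * (Real.log k - 1)) := by
            rw [Real.exp_add, Real.exp_log hk1]
        _ ≤ (k + 1) * (k.descFactorial m : ℝ) := mul_le_mul_of_nonneg_left h1 hk1.le

open Classical in
theorem success_le_of_aut {n m : ℕ} (hm : 1 ≤ m) (hmn : m ≤ n) {p : ℝ} (hp0 : 0 < p) (hp1 : p < 1)
    (A : Estimator n m) {B : ℝ}
    (hB : ∑ F : SimpleGraph (Fin m), erMass m p F * (aut F : ℝ) ≤ B) :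
    successProb n m p A ≤ 1 / 2 +
      B * Real.exp (-((m : ℝ) * (Real.log n - (m : ℝ) / 2 * Real.binEntropy p - 2))) := by
  have h1 := success_le_counting hmn hp0.le hp1.le A
    (fun F => Real.exp (-((m.choose 2 : ℕ) * Real.binEntropy p + 1 * m)) ≤ erMass m p F)
  have h2 := atypical_le hm hp0 hp1 (K := 1) one_pos
  have hh : 0 ≤ Real.binEntropy p := Real.binEntropy_nonneg hp0.le hp1.le
  have hDF : ((n.choose m : ℝ) * (m.factorial : ℝ)) = (n.descFactorial m : ℝ) := by
    rw [Nat.descFactorial_eq_factorial_mul_choose]; push_cast; ring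
  have hD := descFactorial_ge m n hmn
  have h3 : ∑ F : SimpleGraph (Fin m),
      (if Real.exp (-((m.choose 2 : ℕ) * Real.binEntropy p + 1 * m)) ≤ erMass m p F
        then (aut F : ℝ) else 0) ≤
      Real.exp ((m.choose 2 : ℕ) * Real.binEntropy p + m) * B := by
    refine le_trans ?_ (mul_le_mul_of_nonneg_left hB (Real.exp_pos _).le)
    rw [Finset.mul_sum]
    refine Finset.sum_le_sum fun F _ => ?_
    have hmass : 0 ≤ erMass m p F := erMass_nonneg hp0.le hp1.le F
    split_ifs with h
    · have h4 : 1 ≤ Real.exp ((m.choose 2 : ℕ) * Real.binEntropy p + m) * erMass m p F := by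
        have h5 : Real.exp ((m.choose 2 : ℕ) * Real.binEntropy p + m) *
            Real.exp (-((m.choose 2 : ℕ) * Real.binEntropy p + 1 * m)) = 1 := by
          rw [← Real.exp_add]; ring_nf; exact Real.exp_zero
        rw [← h5]
        exact mul_le_mul_of_nonneg_left h (Real.exp_pos _).le
      calc (aut F : ℝ) = 1 * (aut F : ℝ) := (one_mul _).symm
        _ ≤ (Real.exp ((m.choose 2 : ℕ) * Real.binEntropy p + m) * erMass m p F) * (aut F : ℝ) :=
            mul_le_mul_of_nonneg_right h4 (Nat.cast_nonneg _)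
        _ = _ := by ring
    · positivity
  have hB0 : 0 ≤ B := le_trans (Finset.sum_nonneg fun F _ =>
    mul_nonneg (erMass_nonneg hp0.le hp1.le F) (Nat.cast_nonneg _)) hB
  have hDpos : 0 < (n.descFactorial m : ℝ) := lt_of_lt_of_le (Real.exp_pos _) hD
  have h6 : (1 / ((n.choose m : ℝ) * (m.factorial : ℝ))) *
        ∑ F : SimpleGraph (Fin m),
        (if Real.exp (-((m.choose 2 : ℕ) * Real.binEntropy p + 1 * m)) ≤ erMass m p F
        then (aut F : ℝ) else 0) ≤
      B * Real.exp (-((m : ℝ) * (Real.log n - (m : ℝ) / 2 * Real.binEntropy p - 2))) := by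
    rw [hDF]
    have h7 : 1 / (n.descFactorial m : ℝ) ≤ Real.exp (-((m : ℝ) * (Real.log n - 1))) := by
      rw [Real.exp_neg, ← one_div]
      exact one_div_le_one_div_of_le (Real.exp_pos _) hD
    have hM : ((m.choose 2 : ℕ) : ℝ) * Real.binEntropy p ≤ (m : ℝ) * ((m : ℝ) / 2 * Real.binEntropy p) := by
      have : ((m.choose 2 : ℕ) : ℝ) ≤ (m : ℝ) * ((m : ℝ) / 2) := by
        rw [Nat.cast_choose_two]; nlinarith [Nat.cast_nonneg (α := ℝ) m]
      calc _ ≤ (m : ℝ) * ((m : ℝ) / 2) * Real.binEntropy p := mul_le_mul_of_nonneg_right this hh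
        _ = _ := by ring
    calc _ ≤ Real.exp (-((m : ℝ) * (Real.log n - 1))) *
          (Real.exp ((m.choose 2 : ℕ) * Real.binEntropy p + m) * B) := by
          refine mul_le_mul h7 h3 ?_ (Real.exp_pos _).le
          exact Finset.sum_nonneg fun F _ => by split_ifs <;> positivity
      _ = B * Real.exp (-((m : ℝ) * (Real.log n - 1)) + ((m.choose 2 : ℕ) * Real.binEntropy p + m)) := by
          rw [Real.exp_add (-((m : ℝ) * (Real.log n - 1)))
            (((m.choose 2 : ℕ) : ℝ) * Real.binEntropy p + m)]; ring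
      _ ≤ _ := by
          refine mul_le_mul_of_nonneg_left ?_ hB0
          rw [Real.exp_le_exp]
          nlinarith
  calc successProb n m p A ≤ _ := h1
    _ ≤ 1 / (2 * 1 ^ 2) +
      B * Real.exp (-((m : ℝ) * (Real.log n - (m : ℝ) / 2 * Real.binEntropy p - 2))) := add_le_add h2 h6
    _ = _ := by norm_num

open Classical in
/-- Regime of small `m`. -/
theorem success_small {n m : ℕ} (hm : 1 ≤ m) (hmn : m ≤ n) {p : ℝ} (hp0 : 0 < p) (hp1 : p < 1)
    (A : Estimator n m)
    (hω : 4 + Real.log m ≤ Real.log n - (m : ℝ) / 2 * Real.binEntropy p) :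
    successProb n m p A ≤ 3 / 4 := by
  have hm1 : (1 : ℝ) ≤ m := by exact_mod_cast hm
  have hB : ∑ F : SimpleGraph (Fin m), erMass m p F * (aut F : ℝ) ≤ Real.exp (m * Real.log m) := by
    have h1 : ∀ F : SimpleGraph (Fin m), (aut F : ℝ) ≤ Real.exp (m * Real.log m) := by
      intro F
      have h2 : (aut F : ℝ) ≤ (m.factorial : ℝ) := by exact_mod_cast aut_le_factorial F
      have h3 : (m.factorial : ℝ) ≤ (m : ℝ) ^ m := by exact_mod_cast Nat.factorial_le_pow m
      have h4 : (m : ℝ) ^ m = Real.exp (m * Real.log m) := by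
        rw [Real.exp_nat_mul, Real.exp_log (by linarith)]
      linarith
    calc ∑ F : SimpleGraph (Fin m), erMass m p F * (aut F : ℝ) ≤
        ∑ F : SimpleGraph (Fin m), erMass m p F * Real.exp (m * Real.log m) :=
          Finset.sum_le_sum fun F _ => mul_le_mul_of_nonneg_left (h1 F) (erMass_nonneg hp0.le hp1.le F)
      _ = Real.exp (m * Real.log m) := by rw [← Finset.sum_mul, sum_erMass_one, one_mul]
  refine (success_le_of_aut hm hmn hp0 hp1 A hB).trans ?_
  rw [← Real.exp_add]
  have h5 : (m : ℝ) * Real.log m + -((m : ℝ) * (Real.log n - (m : ℝ) / 2 * Real.binEntropy p - 2)) ≤ -2 := by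
    nlinarith
  have h6 : Real.exp ((m : ℝ) * Real.log m + -((m : ℝ) * (Real.log n - (m : ℝ) / 2 * Real.binEntropy p - 2))) ≤
      Real.exp (-2) := Real.exp_le_exp.2 h5
  have h7 : Real.exp (-2) ≤ 1 / 4 := by
    rw [Real.exp_neg]
    have : (4 : ℝ) ≤ Real.exp 2 := by
      have h8 : Real.exp 2 = Real.exp 1 * Real.exp 1 := by rw [← Real.exp_add]; norm_num
      have h9 : (2 : ℝ) ≤ Real.exp 1 := by linarith [Real.add_one_le_exp (1 : ℝ)]
      rw [h8]; nlinarith
    rw [inv_eq_one_div]
    exact one_div_le_one_div_of_le (by norm_num) this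
  linarith

open Classical in
/-- Regime of large average degree. -/
theorem success_dense {n m : ℕ} (hm : 2 ≤ m) (hmn : m ≤ n) {p : ℝ} (hp0 : 0 < p) (hp1 : p < 1)
    (A : Estimator n m)
    (hpm : Real.log m ≤ p * (1 - p) * ((m : ℝ) - 2) / 3)
    (hω : 5 ≤ Real.log n - (m : ℝ) / 2 * Real.binEntropy p) :
    successProb n m p A ≤ 3 / 4 := by
  have hm1 : (2 : ℝ) ≤ m := by exact_mod_cast hm
  have hB : ∑ F : SimpleGraph (Fin m), erMass m p F * (aut F : ℝ) ≤ Real.exp m := by
    refine (expect_aut_le hp0.le hp1.le hm hpm).trans ?_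
    exact Real.add_one_le_exp _
  refine (success_le_of_aut (by omega) hmn hp0 hp1 A hB).trans ?_
  rw [← Real.exp_add]
  have h5 : (m : ℝ) + -((m : ℝ) * (Real.log n - (m : ℝ) / 2 * Real.binEntropy p - 2)) ≤ -2 := by
    nlinarith
  have h6 : Real.exp ((m : ℝ) + -((m : ℝ) * (Real.log n - (m : ℝ) / 2 * Real.binEntropy p - 2))) ≤
      Real.exp (-2) := Real.exp_le_exp.2 h5
  have h7 : Real.exp (-2) ≤ 1 / 4 := by
    rw [Real.exp_neg]
    have : (4 : ℝ) ≤ Real.exp 2 := by
      have h8 : Real.exp 2 = Real.exp 1 * Real.exp 1 := by rw [← Real.exp_add]; norm_num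
      have h9 : (2 : ℝ) ≤ Real.exp 1 := by linarith [Real.add_one_le_exp (1 : ℝ)]
      rw [h8]; nlinarith
    rw [inv_eq_one_div]
    exact one_div_le_one_div_of_le (by norm_num) this
  linarith

end Pool.Agent.Helper17.ER
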