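import Mathlib
import Pool.Agent.Helper17.ER.Defs
import Pool.Agent.Helper17.ER.Weights
import Pool.Agent.Helper17.ER.Bridge
import Pool.Agent.Helper17.ER.Success
import Pool.Agent.Helper17.ER.Swap

/-! Lower bound for the probability of a swap partner. -/

open scoped BigOperators

namespace Pool.Agent.Helper17.ER

section
variable {n : ℕ} (S U : Finset (Fin n))

/-- Coordinates used in the argument. -/
abbrev Idx : Type := ({x // x ∈ U} × {x // x ∈ S \ U}) ⊕ (Sym2 {x // x ∈ U} ⊕ ({x // x ∈ Sᶜ} × {x // x ∈ S}))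

/-- The embedding of coordinates. -/
def rho : Idx S U → Sym2 (Fin n)
  | Sum.inl (u, v) => s(u.1, v.1)
  | Sum.inr (Sum.inl e) => e.map Subtype.val
  | Sum.inr (Sum.inr (v, j)) => s(v.1, j.1)

theorem rho_injective (hU : U ⊆ S) : Function.Injective (rho S U) := by
  have key1 : ∀ (a b : Fin n) (e : Sym2 {x // x ∈ U}), s(a, b) = e.map Subtype.val → a ∈ U ∧ b ∈ U := by
    intro a b e
    induction e using Sym2.ind with
    | _ i j =>
      intro h
      rw [Sym2.map_mk, Sym2.eq_iff] at h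
      rcases h with ⟨rfl, rfl⟩ | ⟨rfl, rfl⟩
      · exact ⟨i.2, j.2⟩
      · exact ⟨j.2, i.2⟩
  rintro (⟨⟨u, hu⟩, ⟨v, hv⟩⟩ | e | ⟨⟨v, hv⟩, ⟨j, hj⟩⟩) (⟨⟨u', hu'⟩, ⟨v', hv'⟩⟩ | e' | ⟨⟨v', hv'⟩, ⟨j', hj'⟩⟩) h
  · simp only [rho, Sym2.eq_iff] at h
    rw [Finset.mem_sdiff] at hv hv'
    rcases h with ⟨rfl, rfl⟩ | ⟨rfl, rfl⟩
    · rfl
    · exact absurd hu hv'.2
  · simp only [rho] at h
    rw [Finset.mem_sdiff] at hv
    exact absurd (key1 _ _ _ h).2 hv.2
  · simp only [rho, Sym2.eq_iff] at h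
    rw [Finset.mem_sdiff] at hv
    rw [Finset.mem_compl] at hv'
    rcases h with ⟨rfl, rfl⟩ | ⟨rfl, rfl⟩
    · exact absurd (hU hu) hv'
    · exact absurd hv.1 hv'
  · simp only [rho] at h
    rw [Finset.mem_sdiff] at hv'
    exact absurd (key1 _ _ _ h.symm).2 hv'.2
  · simp only [rho] at h
    rw [Sym2.map.injective Subtype.val_injective h]
  · simp only [rho] at h
    rw [Finset.mem_compl] at hv'
    exact absurd (hU (key1 _ _ _ h.symm).1) hv'
  · simp only [rho, Sym2.eq_iff] at h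
    rw [Finset.mem_sdiff] at hv'
    rw [Finset.mem_compl] at hv
    rcases h with ⟨rfl, rfl⟩ | ⟨rfl, rfl⟩
    · exact absurd (hU hu') hv
    · exact absurd hv'.1 hv
  · simp only [rho] at h
    rw [Finset.mem_compl] at hv
    exact absurd (hU (key1 _ _ _ h).1) hv
  · simp only [rho, Sym2.eq_iff] at h
    rw [Finset.mem_compl] at hv hv'
    rcases h with ⟨rfl, rfl⟩ | ⟨rfl, rfl⟩
    · rfl
    · exact absurd hj' hv

/-- The target row for the outside vertices. -/
noncomputable def target (R : {x // x ∈ U} × {x // x ∈ S \ U} → Bool) (u : {x // x ∈ U})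
    (j : {x // x ∈ S}) : Bool :=
  if h : j.1 ∈ U then false else R (u, ⟨j.1, Finset.mem_sdiff.2 ⟨j.2, h⟩⟩)

/-- The event in coordinates. -/
def Ev (hU : U ⊆ S) (R : {x // x ∈ U} × {x // x ∈ S \ U} → Bool) (y : Sym2 {x // x ∈ U} → Bool)
    (z : {x // x ∈ Sᶜ} × {x // x ∈ S} → Bool) : Prop :=
  ∃ u : {x // x ∈ U}, (∀ u' : {x // x ∈ U}, u' ≠ u → y s(u, u') = false) ∧
    ∃ v : {x // x ∈ Sᶜ}, ∀ j : {x // x ∈ S}, j ≠ ⟨u.1, hU u.2⟩ → z (v, j) = target S U R u j

theorem good_of_ev (hU : U ⊆ S) (x : Sym2 (Fin n) → Bool)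
    (h : Ev S U hU ((x ∘ rho S U) ∘ Sum.inl) (((x ∘ rho S U) ∘ Sum.inr) ∘ Sum.inl)
      (((x ∘ rho S U) ∘ Sum.inr) ∘ Sum.inr)) : Good (graphOf x) S := by
  obtain ⟨u, hy, v, hz⟩ := h
  have hv : v.1 ∉ S := by have := v.2; rwa [Finset.mem_compl] at this
  refine ⟨u.1, hU u.2, v.1, hv, ?_⟩
  intro j hj hju
  rw [graphOf_adj, graphOf_adj]
  have hvj : v.1 ≠ j := fun h => hv (h ▸ hj)
  have h1 := hz ⟨j, hj⟩ (fun h => hju (congrArg Subtype.val h))
  simp only [Function.comp, rho, target] at h1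
  by_cases hjU : j ∈ U
  · rw [dif_pos hjU] at h1
    have h2 := hy ⟨j, hjU⟩ (fun h => hju (congrArg Subtype.val h))
    simp only [Function.comp, rho, Sym2.map_mk] at h2
    rw [h1, h2]; simp
  · rw [dif_neg hjU] at h1
    rw [h1]
    exact ⟨fun h => ⟨hvj, h.2⟩, fun h => ⟨Ne.symm hju, h.2⟩⟩

open Classical in
theorem good_prob_ge (hU : U ⊆ S) {p : ℝ} (hp0 : 0 ≤ p) (hp1 : p ≤ 1) (r : ℕ) :
    (1 - (1 - ((S.card - U.card).choose r : ℝ) * p ^ r * (1 - p) ^ (S.card - U.card - r)) ^ U.card) *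
      ((1 - p) ^ (U.card - 1) * (1 - (1 - p ^ r * (1 - p) ^ (S.card - 1 - r)) ^ (n - S.card))) ≤
    ∑ G : SimpleGraph (Fin n), erMass n p G * (if Good G S then 1 else 0) := by
  have hcW : Fintype.card {x // x ∈ S \ U} = S.card - U.card := by
    rw [Fintype.card_coe, Finset.card_sdiff_of_subset hU]
  have hcU : Fintype.card {x // x ∈ U} = U.card := Fintype.card_coe U
  have hcV : Fintype.card {x // x ∈ Sᶜ} = n - S.card := by
    rw [Fintype.card_coe, Finset.card_compl, Fintype.card_fin]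
  rw [sum_erMass n p (fun G => if Good G S then 1 else 0)]
  -- pass to the event
  have h1 : ∑ R : {x // x ∈ U} × {x // x ∈ S \ U} → Bool, w p R *
      ∑ yz : (Sym2 {x // x ∈ U} ⊕ ({x // x ∈ Sᶜ} × {x // x ∈ S})) → Bool, w p yz *
        (if Ev S U hU R (yz ∘ Sum.inl) (yz ∘ Sum.inr) then (1 : ℝ) else 0) ≤
      ∑ x : Sym2 (Fin n) → Bool, w p x * (if Good (graphOf x) S then (1 : ℝ) else 0) := by
    have h2 := sum_w_sum (p := p) (I := {x // x ∈ U} × {x // x ∈ S \ U})
      (J := Sym2 {x // x ∈ U} ⊕ ({x // x ∈ Sᶜ} × {x // x ∈ S}))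
      (fun R yz => (if Ev S U hU R (yz ∘ Sum.inl) (yz ∘ Sum.inr) then (1 : ℝ) else 0))
    rw [← h2]
    have h3 := sum_w_marginal (p := p) (rho S U) (rho_injective S U hU)
      (fun t => (if Ev S U hU (t ∘ Sum.inl) ((t ∘ Sum.inr) ∘ Sum.inl) ((t ∘ Sum.inr) ∘ Sum.inr)
        then (1 : ℝ) else 0))
    rw [← h3]
    refine Finset.sum_le_sum fun x _ => ?_
    refine mul_le_mul_of_nonneg_left ?_ (w_nonneg hp0 hp1 x)
    by_cases hE : Ev S U hU ((x ∘ rho S U) ∘ Sum.inl) (((x ∘ rho S U) ∘ Sum.inr) ∘ Sum.inl)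
      (((x ∘ rho S U) ∘ Sum.inr) ∘ Sum.inr)
    · rw [if_pos hE, if_pos (good_of_ev S U hU x hE)]
    · rw [if_neg hE]
      split_ifs <;> norm_num
  refine le_trans ?_ h1
  -- rows
  have hrow : ∑ t : {x // x ∈ S \ U} → Bool, w p t *
      (if (Finset.univ.filter (fun e => t e = true)).card = r then (1 : ℝ) else 0) =
      ((S.card - U.card).choose r : ℝ) * p ^ r * (1 - p) ^ (S.card - U.card - r) := by
    rw [sum_w_card, hcW]
  have h4 := sum_w_exists_row (V := {x // x ∈ U}) (J := {x // x ∈ S \ U}) (p := p)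
    (fun t => (Finset.univ.filter (fun e => t e = true)).card = r) _ hrow
  rw [hcU] at h4
  rw [← h4, Finset.sum_mul]
  refine Finset.sum_le_sum fun R _ => ?_
  rw [mul_assoc]
  refine mul_le_mul_of_nonneg_left ?_ (w_nonneg hp0 hp1 R)
  have hq0 : 0 ≤ p ^ r * (1 - p) ^ (S.card - 1 - r) :=
    mul_nonneg (pow_nonneg hp0 _) (pow_nonneg (by linarith) _)
  have hq1 : p ^ r * (1 - p) ^ (S.card - 1 - r) ≤ 1 :=
    mul_le_one₀ (pow_le_one₀ hp0 hp1) (pow_nonneg (by linarith) _)
      (pow_le_one₀ (by linarith) (by linarith))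
  by_cases hlow : ∃ u : {x // x ∈ U}, (Finset.univ.filter (fun e => R (u, e) = true)).card = r
  · rw [if_pos hlow, one_mul]
    obtain ⟨u, hu⟩ := hlow
    -- choose u
    have h5 : ∑ y : Sym2 {x // x ∈ U} → Bool, w p y *
        ∑ z : {x // x ∈ Sᶜ} × {x // x ∈ S} → Bool, w p z *
          ((if ∀ u' : {x // x ∈ U}, u' ≠ u → y s(u, u') = false then (1 : ℝ) else 0) *
          (if ∃ v : {x // x ∈ Sᶜ}, ∀ j : {x // x ∈ S}, j ≠ ⟨u.1, hU u.2⟩ → z (v, j) = target S U R u j
            then (1 : ℝ) else 0)) ≤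
        ∑ yz : (Sym2 {x // x ∈ U} ⊕ ({x // x ∈ Sᶜ} × {x // x ∈ S})) → Bool, w p yz *
        (if Ev S U hU R (yz ∘ Sum.inl) (yz ∘ Sum.inr) then (1 : ℝ) else 0) := by
      have h6 := sum_w_sum (p := p) (I := Sym2 {x // x ∈ U}) (J := {x // x ∈ Sᶜ} × {x // x ∈ S})
        (fun y z => ((if ∀ u' : {x // x ∈ U}, u' ≠ u → y s(u, u') = false then (1 : ℝ) else 0) *
          (if ∃ v : {x // x ∈ Sᶜ}, ∀ j : {x // x ∈ S}, j ≠ ⟨u.1, hU u.2⟩ → z (v, j) = target S U R u j
            then (1 : ℝ) else 0)))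
      rw [← h6]
      refine Finset.sum_le_sum fun yz _ => ?_
      refine mul_le_mul_of_nonneg_left ?_ (w_nonneg hp0 hp1 yz)
      by_cases hy : ∀ u' : {x // x ∈ U}, u' ≠ u → (yz ∘ Sum.inl) s(u, u') = false
      · by_cases hz : ∃ v : {x // x ∈ Sᶜ}, ∀ j : {x // x ∈ S}, j ≠ ⟨u.1, hU u.2⟩ →
          (yz ∘ Sum.inr) (v, j) = target S U R u j
        · rw [if_pos hy, if_pos hz, if_pos ⟨u, hy, hz⟩]; norm_num
        · rw [if_neg hz, mul_zero]; split_ifs <;> norm_num
      · rw [if_neg hy, zero_mul]; split_ifs <;> norm_num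
    refine le_trans (le_of_eq ?_) h5
    -- factor
    have hZ : ∑ z : {x // x ∈ Sᶜ} × {x // x ∈ S} → Bool, w p z *
        (if ∃ v : {x // x ∈ Sᶜ}, ∀ j : {x // x ∈ S}, j ≠ ⟨u.1, hU u.2⟩ → z (v, j) = target S U R u j
            then (1 : ℝ) else 0) = 1 - (1 - p ^ r * (1 - p) ^ (S.card - 1 - r)) ^ (n - S.card) := by
      have h7 : ∑ t : {x // x ∈ S} → Bool, w p t *
          (if ∀ j : {x // x ∈ S}, j ≠ ⟨u.1, hU u.2⟩ → t j = target S U R u j then (1 : ℝ) else 0) =
          p ^ r * (1 - p) ^ (S.card - 1 - r) := by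
        rw [sum_w_target p (target S U R u) ⟨u.1, hU u.2⟩]
        rw [Finset.prod_ite]
        simp only [Finset.prod_const]
        have hA : ((Finset.univ.erase (⟨u.1, hU u.2⟩ : {x // x ∈ S})).filter
            (fun j => target S U R u j = true)).card = r := by
          rw [← hu]
          have hmem : ∀ j ∈ ((Finset.univ.erase (⟨u.1, hU u.2⟩ : {x // x ∈ S})).filter
              (fun j => target S U R u j = true)), ∃ h : j.1 ∈ S \ U, R (u, ⟨j.1, h⟩) = true := by
            intro j hj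
            rw [Finset.mem_filter] at hj
            have h8 := hj.2
            unfold target at h8
            split_ifs at h8 with h9
            exact ⟨Finset.mem_sdiff.2 ⟨j.2, h9⟩, h8⟩
          refine Finset.card_bij' (fun j hj => ⟨j.1, (hmem j hj).1⟩)
            (fun e _ => ⟨e.1, (Finset.mem_sdiff.1 e.2).1⟩) ?_ ?_ ?_ ?_
          · intro j hj
            rw [Finset.mem_filter]
            exact ⟨Finset.mem_univ _, (hmem j hj).2⟩
          · intro e he
            rw [Finset.mem_filter] at he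
            have he2 := Finset.mem_sdiff.1 e.2
            rw [Finset.mem_filter, Finset.mem_erase]
            refine ⟨⟨?_, Finset.mem_univ _⟩, ?_⟩
            · intro h
              have h11 : e.1 = u.1 := congrArg Subtype.val h
              exact he2.2 (h11 ▸ u.2)
            · unfold target
              rw [dif_neg he2.2]
              exact he.2
          · intro j hj
            rfl
          · intro e he
            rfl
        have hB : ((Finset.univ.erase (⟨u.1, hU u.2⟩ : {x // x ∈ S})).filter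
            (fun j => ¬ target S U R u j = true)).card = S.card - 1 - r := by
          have h12 := Finset.card_filter_add_card_filter_not
            (s := Finset.univ.erase (⟨u.1, hU u.2⟩ : {x // x ∈ S}))
            (fun j => target S U R u j = true)
          rw [hA, Finset.card_erase_of_mem (Finset.mem_univ _), Finset.card_univ,
            Fintype.card_coe] at h12
          omega
        rw [hA, hB]
      have h13 := sum_w_exists_row (V := {x // x ∈ Sᶜ}) (J := {x // x ∈ S}) (p := p)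
        (fun t => ∀ j : {x // x ∈ S}, j ≠ ⟨u.1, hU u.2⟩ → t j = target S U R u j) _ h7
      rw [hcV] at h13
      exact h13
    have hY : ∑ y : Sym2 {x // x ∈ U} → Bool, w p y *
        (if ∀ u' : {x // x ∈ U}, u' ≠ u → y s(u, u') = false then (1 : ℝ) else 0) =
        (1 - p) ^ (U.card - 1) := by
      have hinj : Function.Injective (fun u' : {u' : {x // x ∈ U} // u' ≠ u} => s(u, u'.1)) := by
        intro a b h
        simp only [Sym2.eq_iff] at h
        rcases h with ⟨_, h⟩ | ⟨h, _⟩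
        · exact Subtype.ext h
        · exact absurd h.symm b.2
      have h14 := sum_w_marginal (p := p) (fun u' : {u' : {x // x ∈ U} // u' ≠ u} => s(u, u'.1)) hinj
        (fun t => if ∀ j, t j = false then (1 : ℝ) else 0)
      rw [sum_w_false] at h14
      have h15 : Fintype.card {u' : {x // x ∈ U} // u' ≠ u} = U.card - 1 := by
        rw [Fintype.card_subtype_compl, hcU]; simp
      rw [h15] at h14
      rw [← h14]
      refine Finset.sum_congr rfl fun y _ => ?_
      congr 1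
      have h16 : (∀ u' : {x // x ∈ U}, u' ≠ u → y s(u, u') = false) ↔
          (∀ j : {u' : {x // x ∈ U} // u' ≠ u},
            (y ∘ fun u' : {u' : {x // x ∈ U} // u' ≠ u} => s(u, u'.1)) j = false) :=
        ⟨fun h j => h j.1 j.2, fun h u' hu' => h ⟨u', hu'⟩⟩
      by_cases h17 : ∀ u' : {x // x ∈ U}, u' ≠ u → y s(u, u') = false
      · rw [if_pos h17, if_pos (h16.1 h17)]
      · rw [if_neg h17, if_neg (fun h => h17 (h16.2 h))]
    rw [← hY, ← hZ, Finset.sum_mul]
    refine Finset.sum_congr rfl fun y _ => ?_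
    rw [mul_assoc, Finset.mul_sum]
    congr 1
    refine Finset.sum_congr rfl fun z _ => ?_
    ring
  · rw [if_neg hlow, zero_mul]
    exact Finset.sum_nonneg fun yz _ => mul_nonneg (w_nonneg hp0 hp1 yz) (by split_ifs <;> norm_num)

end

theorem good_not {n : ℕ} (x : Sym2 (Fin n) → Bool) (S : Finset (Fin n))
    (h : Good (graphOf x) S) : Good (graphOf (fun e => !(x e))) S := by
  obtain ⟨u, hu, v, hv, huv⟩ := h
  refine ⟨u, hu, v, hv, ?_⟩
  intro j hj hju
  have h1 := huv j hj hju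
  rw [graphOf_adj, graphOf_adj] at h1 ⊢
  have hvj : v ≠ j := fun h => hv (h ▸ hj)
  simp only [ne_eq, Ne.symm hju, not_false_eq_true, hvj, true_and] at h1 ⊢
  cases hx : x s(u, j) <;> cases hy : x s(v, j) <;> simp_all

open Classical in
/-- Complement symmetry. -/
theorem good_prob_symm {n : ℕ} (p : ℝ) (S : Finset (Fin n)) :
    ∑ G : SimpleGraph (Fin n), erMass n p G * (if Good G S then (1 : ℝ) else 0) =
      ∑ G : SimpleGraph (Fin n), erMass n (1 - p) G * (if Good G S then (1 : ℝ) else 0) := by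
  rw [sum_erMass n p (fun G => if Good G S then (1 : ℝ) else 0),
    sum_erMass n (1 - p) (fun G => if Good G S then (1 : ℝ) else 0)]
  have hinv : Function.Involutive (fun x : Sym2 (Fin n) → Bool => fun e => !(x e)) := by
    intro x; ext e; simp
  refine Fintype.sum_equiv hinv.toPerm _ _ fun x => ?_
  simp only [Function.Involutive.coe_toPerm]
  have hw : w (1 - p) (fun e => !(x e)) = w p x := by
    unfold w
    refine Finset.prod_congr rfl fun e _ => ?_
    by_cases h : x e = true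
    · simp [h]
    · have h' : x e = false := by simpa using h
      simp [h']
  rw [hw]
  congr 1
  by_cases h : Good (graphOf x) S
  · rw [if_pos h, if_pos (good_not x S h)]
  · rw [if_neg h, if_neg]
    intro h'
    have h2 := good_not _ S h'
    simp only [Bool.not_not] at h2
    exact h h2

end Pool.Agent.Helper17.ER
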