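import Mathlib

/-! Numerical estimates for the sparse regime. -/

namespace Pool.Agent.Helper17.ER

theorem log_factorial_le (r : ℕ) (hr : 1 ≤ r) :
    Real.log (r.factorial : ℝ) ≤ 1 + Real.log r + r * Real.log r - r := by
  induction r, hr using Nat.le_induction with
  | base => simp
  | succ r hr ih =>
    have hr0 : (0 : ℝ) < r := by exact_mod_cast hr
    have hr1 : (0 : ℝ) < (r : ℝ) + 1 := by positivity
    rw [Nat.factorial_succ]
    push_cast
    rw [Real.log_mul hr1.ne' (by exact_mod_cast (Nat.factorial_pos r).ne')]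
    have h1 : 1 ≤ ((r : ℝ) + 1) * (Real.log (r + 1) - Real.log r) := by
      have h2 := Real.log_le_sub_one_of_pos (div_pos hr0 hr1)
      rw [Real.log_div hr0.ne' hr1.ne'] at h2
      have h3 : (r : ℝ) / (r + 1) - 1 = -(1 / (r + 1)) := by field_simp; ring
      rw [h3] at h2
      have h4 : 1 / ((r : ℝ) + 1) ≤ Real.log (r + 1) - Real.log r := by linarith
      calc (1 : ℝ) = ((r : ℝ) + 1) * (1 / (r + 1)) := by field_simp
        _ ≤ _ := mul_le_mul_of_nonneg_left h4 hr1.le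
    nlinarith

theorem log_choose_ge {N r : ℕ} (hr : 1 ≤ r) (hN : r < N) :
    (r : ℝ) * Real.log ((N : ℝ) - r) - (1 + Real.log r + r * Real.log r - r) ≤
      Real.log (N.choose r : ℝ) := by
  have h1 := Nat.pow_sub_le_descFactorial N r
  have hpos : (0 : ℝ) < (N : ℝ) - r := by
    have : (r : ℝ) < N := by exact_mod_cast hN
    linarith
  have h2 : ((N : ℝ) - r) ^ r ≤ (N.descFactorial r : ℝ) := by
    have h3 : ((N - r : ℕ) : ℝ) ^ r ≤ (((N + 1 - r) ^ r : ℕ) : ℝ) := by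
      push_cast
      refine pow_le_pow_left₀ (Nat.cast_nonneg _) ?_ r
      exact_mod_cast (by omega : N - r ≤ N + 1 - r)
    rw [Nat.cast_sub hN.le] at h3
    refine h3.trans ?_
    exact_mod_cast h1
  rw [Nat.descFactorial_eq_factorial_mul_choose] at h2
  push_cast at h2
  have hc : (0 : ℝ) < (N.choose r : ℝ) := by exact_mod_cast Nat.choose_pos hN.le
  have hf : (0 : ℝ) < (r.factorial : ℝ) := by exact_mod_cast Nat.factorial_pos r
  have h4 := Real.log_le_log (pow_pos hpos r) h2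
  rw [Real.log_pow, Real.log_mul hf.ne' hc.ne'] at h4
  have h5 := log_factorial_le r hr
  linarith

theorem log_one_sub_ge {p : ℝ} (hp0 : 0 < p) (hp1 : p ≤ 1 / 1000) :
    -(p * (1001 / 1000 + 1 / 100000)) ≤ Real.log (1 - p) := by
  have hq : 0 < 1 - p := by linarith
  have h1 := Real.log_le_sub_one_of_pos (inv_pos.2 hq)
  rw [Real.log_inv] at h1
  have h2 : (1 - p)⁻¹ - 1 = p * (1 - p)⁻¹ := by field_simp; ring
  rw [h2] at h1
  have h3 : (1 - p)⁻¹ ≤ 1001 / 1000 + 1 / 100000 := by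
    rw [inv_le_comm₀ hq (by norm_num)]
    refine le_trans ?_ (by linarith : (999 : ℝ) / 1000 ≤ 1 - p)
    norm_num
  nlinarith

theorem exp_neg_bound : (2 : ℝ) / 25 ≤ Real.exp (-(5 / 2)) := by
  have h1 : Real.exp (5 / 2) ^ 2 = Real.exp 1 ^ 5 := by
    rw [← Real.exp_nat_mul, ← Real.exp_nat_mul]; norm_num
  have h2 : Real.exp 1 < 2.7182818286 := Real.exp_one_lt_d9
  have h3 : Real.exp 1 ^ 5 ≤ (2.7182818286 : ℝ) ^ 5 :=
    pow_le_pow_left₀ (Real.exp_pos _).le h2.le 5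
  have h4 : Real.exp (5 / 2) ≤ 25 / 2 := by
    have h5 : Real.exp (5 / 2) ^ 2 ≤ (25 / 2 : ℝ) ^ 2 := by
      rw [h1]; refine h3.trans ?_; norm_num
    exact le_of_sq_le_sq h5 (by norm_num)
  rw [Real.exp_neg, ← one_div, div_le_div_iff₀ (by norm_num) (Real.exp_pos _)]
  linarith

theorem log_le_mul {x : ℝ} (hx : 1000 ≤ x) : Real.log x ≤ (64 / 1000) * x := by
  have hx0 : 0 < x := by linarith
  have h1 : Real.log x = 2 * Real.log (Real.sqrt x) := by
    rw [Real.log_sqrt hx0.le]; ring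
  have h2 := Real.log_le_sub_one_of_pos (Real.sqrt_pos.2 hx0)
  have h3 : Real.sqrt x ^ 2 = x := Real.sq_sqrt hx0.le
  have h4 : 31.5 ≤ Real.sqrt x := by
    apply Real.le_sqrt_of_sq_le; norm_num; linarith
  rw [h1]
  nlinarith [Real.sqrt_nonneg x]

theorem log_large_ge : (9 : ℝ) / 10 ≤ Real.log (99 / 40) := by
  rw [Real.le_log_iff_exp_le (by norm_num)]
  have h1 : Real.exp (9 / 10) ^ 10 = Real.exp 1 ^ 9 := by
    rw [← Real.exp_nat_mul, ← Real.exp_nat_mul]; norm_num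
  have h2 : Real.exp 1 < 2.7182818286 := Real.exp_one_lt_d9
  have h3 : Real.exp 1 ^ 9 ≤ (2.7182818286 : ℝ) ^ 9 :=
    pow_le_pow_left₀ (Real.exp_pos _).le h2.le 9
  have h5 : Real.exp (9 / 10) ^ 10 ≤ (99 / 40 : ℝ) ^ 10 := by
    rw [h1]; refine h3.trans ?_; norm_num
  exact (pow_le_pow_iff_left₀ (Real.exp_pos _).le (by norm_num) (by norm_num)).1 h5

end Pool.Agent.Helper17.ER
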