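import Mathlib
import Pool.Agent.Helper17.ER.Numeric

/-! Numerical estimates for the sparse regime, continued. -/

namespace Pool.Agent.Helper17.ER

section
variable {m : ℕ} {p : ℝ}

theorem sparse_p_le (h1 : 1000 ≤ Real.log m) (h2 : 10000 * Real.log m ≤ m) (hp0 : 0 < p)
    (hp2 : p ≤ 1 / 2) (hsp : p * (1 - p) * ((m : ℝ) - 2) / 3 < Real.log m) : p ≤ 1 / 1000 := by
  by_contra hcon
  push Not at hcon
  have h3 : p / 2 ≤ p * (1 - p) := by nlinarith
  have h4 : (1 : ℝ) / 2000 ≤ p * (1 - p) := by linarith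
  have h5 : 0 ≤ (m : ℝ) - 2 := by linarith
  have h6 : 1 / 2000 * ((m : ℝ) - 2) ≤ p * (1 - p) * ((m : ℝ) - 2) :=
    mul_le_mul_of_nonneg_right h4 h5
  linarith

theorem sparse_mp_le (h1 : 1000 ≤ Real.log m) (h2 : 10000 * Real.log m ≤ m) (hp0 : 0 < p)
    (hp : p ≤ 1 / 1000) (hsp : p * (1 - p) * ((m : ℝ) - 2) / 3 < Real.log m) :
    (m : ℝ) * p ≤ 305 / 100 * Real.log m := by
  have h5 : 0 ≤ (m : ℝ) - 2 := by linarith
  have h6 : p * (999 / 1000) * ((m : ℝ) - 2) ≤ p * (1 - p) * ((m : ℝ) - 2) := by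
    refine mul_le_mul_of_nonneg_right ?_ h5
    exact mul_le_mul_of_nonneg_left (by linarith) hp0.le
  nlinarith

/-- `log (1/p)` is large. -/
theorem sparse_L_ge (h1 : 1000 ≤ Real.log m) (hp0 : 0 < p)
    (hmp : (m : ℝ) * p ≤ 305 / 100 * Real.log m) : 93 / 100 * Real.log m ≤ - Real.log p := by
  have hm0 : (0 : ℝ) < m := by
    by_contra hcon
    push Not at hcon
    have : (m : ℝ) = 0 := le_antisymm hcon (Nat.cast_nonneg m)
    rw [this, Real.log_zero] at h1
    linarith
  have hl0 : 0 < Real.log m := by linarith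
  have h3 := Real.log_le_log (mul_pos hm0 hp0) hmp
  rw [Real.log_mul hm0.ne' hp0.ne', Real.log_mul (by norm_num) hl0.ne'] at h3
  have h4 := log_le_mul h1
  have h5 : Real.log (305 / 100) ≤ 305 / 100 - 1 := Real.log_le_sub_one_of_pos (by norm_num)
  linarith

theorem binEntropy_ge (hp0 : 0 < p) (hp1 : p < 1) : p * (- Real.log p) ≤ Real.binEntropy p := by
  rw [Real.binEntropy, Real.log_inv, Real.log_inv]
  have h1 : Real.log (1 - p) ≤ 0 := Real.log_nonpos (by linarith) (by linarith)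
  nlinarith

theorem third_factor {n : ℕ} (hmn : m + 1 ≤ n) (h1 : 1000 ≤ Real.log m) (hp0 : 0 < p)
    (hp : p ≤ 1 / 1000) (hmp : (m : ℝ) * p ≤ 305 / 100 * Real.log m)
    (hω : (m : ℝ) / 2 * Real.binEntropy p ≤ Real.log n) (r : ℕ) (hr : r = ⌊2 / 5 * ((m : ℝ) * p)⌋₊) :
    2 / 25 ≤ 1 - (1 - p ^ r * (1 - p) ^ (m - 1 - r)) ^ (n - m) := by
  have hm0 : (0 : ℝ) < m := by
    by_contra hcon
    push Not at hcon
    have : (m : ℝ) = 0 := le_antisymm hcon (Nat.cast_nonneg m)
    rw [this, Real.log_zero] at h1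
    linarith
  have hq1p : 0 < 1 - p := by linarith
  have hlq := log_one_sub_ge hp0 hp
  have hL := sparse_L_ge h1 hp0 hmp
  have hent := binEntropy_ge hp0 (by linarith : p < 1)
  have hmp0 : 0 < (m : ℝ) * p := mul_pos hm0 hp0
  have hrle : (r : ℝ) ≤ 2 / 5 * ((m : ℝ) * p) := by
    rw [hr]; exact Nat.floor_le (by positivity)
  have hqpos : 0 < p ^ r * (1 - p) ^ (m - 1 - r) := mul_pos (pow_pos hp0 _) (pow_pos hq1p _)
  have hqle : p ^ r * (1 - p) ^ (m - 1 - r) ≤ 1 :=
    mul_le_one₀ (pow_le_one₀ hp0.le (by linarith)) (pow_nonneg hq1p.le _)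
      (pow_le_one₀ hq1p.le (by linarith))
  -- lower bound for log q
  have hlogq : -((r : ℝ) * (- Real.log p)) - (m : ℝ) * (p * (1001 / 1000 + 1 / 100000)) ≤
      Real.log (p ^ r * (1 - p) ^ (m - 1 - r)) := by
    rw [Real.log_mul (pow_pos hp0 _).ne' (pow_pos hq1p _).ne', Real.log_pow, Real.log_pow]
    have h3 : ((m - 1 - r : ℕ) : ℝ) ≤ m := by exact_mod_cast (by omega : m - 1 - r ≤ m)
    have h4 : Real.log (1 - p) ≤ 0 := Real.log_nonpos (by linarith) (by linarith)
    have h5 : (m : ℝ) * Real.log (1 - p) ≤ ((m - 1 - r : ℕ) : ℝ) * Real.log (1 - p) :=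
      mul_le_mul_of_nonpos_right h3 h4
    nlinarith
  have hent2 : (m : ℝ) / 2 * (p * (- Real.log p)) ≤ Real.log n :=
    (mul_le_mul_of_nonneg_left hent (by positivity)).trans hω
  have hn0 : (0 : ℝ) < n := by
    have : 0 < n := by omega
    exact_mod_cast this
  rcases Nat.lt_or_ge n (2 * m) with hcase | hcase
  · -- n < 2m
    have h3 : Real.log n ≤ Real.log m + 1 := by
      have h4 : (n : ℝ) ≤ 2 * m := by exact_mod_cast hcase.le
      have h5 := Real.log_le_log hn0 h4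
      rw [Real.log_mul (by norm_num) hm0.ne'] at h5
      have h6 : Real.log 2 ≤ 2 - 1 := Real.log_le_sub_one_of_pos (by norm_num)
      linarith
    have h4 : (m : ℝ) * p < 22 / 10 := by
      by_contra hcon
      push Not at hcon
      have h5 : 22 / 10 * (93 / 100 * Real.log m) ≤ (m : ℝ) * p * (- Real.log p) :=
        mul_le_mul hcon hL (by positivity) (by positivity)
      nlinarith
    have hr0 : r = 0 := by
      rw [hr]
      apply Nat.floor_eq_zero.2
      linarith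
    subst hr0
    have hexp : 2 / 25 ≤ p ^ 0 * (1 - p) ^ (m - 1 - 0) := by
      have h7 : Real.exp (-(5 / 2)) ≤ p ^ 0 * (1 - p) ^ (m - 1 - 0) := by
        rw [← Real.exp_log hqpos, Real.exp_le_exp]
        refine le_trans ?_ hlogq
        push_cast
        nlinarith
      exact exp_neg_bound.trans h7
    have h8 : (1 - p ^ 0 * (1 - p) ^ (m - 1 - 0)) ^ (n - m) ≤ 1 - p ^ 0 * (1 - p) ^ (m - 1 - 0) := by
      have h9 := pow_le_pow_of_le_one (by linarith : 0 ≤ 1 - p ^ 0 * (1 - p) ^ (m - 1 - 0))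
        (by linarith) (by omega : 1 ≤ n - m)
      rwa [pow_one] at h9
    linarith
  · -- 2m ≤ n
    have h3 : 0 ≤ Real.log (p ^ r * (1 - p) ^ (m - 1 - r)) + Real.log n := by
      have h4 : (r : ℝ) * (- Real.log p) ≤ 2 / 5 * ((m : ℝ) * p) * (- Real.log p) :=
        mul_le_mul_of_nonneg_right hrle (by linarith)
      have h5 : (m : ℝ) * p * 930 ≤ (m : ℝ) * p * (- Real.log p) :=
        mul_le_mul_of_nonneg_left (by linarith) hmp0.le
      nlinarith
    have h4 : 1 ≤ (p ^ r * (1 - p) ^ (m - 1 - r)) * n := by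
      rw [← Real.log_mul hqpos.ne' hn0.ne'] at h3
      have := (Real.log_nonneg_iff (mul_pos hqpos hn0)).1 h3
      exact this
    have h5 : (1 - p ^ r * (1 - p) ^ (m - 1 - r)) ^ (n - m) ≤
        Real.exp (-((p ^ r * (1 - p) ^ (m - 1 - r)) * (n - m))) := by
      have h6 : 1 - p ^ r * (1 - p) ^ (m - 1 - r) ≤ Real.exp (-(p ^ r * (1 - p) ^ (m - 1 - r))) := by
        have := Real.add_one_le_exp (-(p ^ r * (1 - p) ^ (m - 1 - r)))
        linarith
      calc (1 - p ^ r * (1 - p) ^ (m - 1 - r)) ^ (n - m) ≤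
          (Real.exp (-(p ^ r * (1 - p) ^ (m - 1 - r)))) ^ (n - m) :=
            pow_le_pow_left₀ (by linarith) h6 _
        _ = Real.exp (-((p ^ r * (1 - p) ^ (m - 1 - r)) * (n - m))) := by
            rw [← Real.exp_nat_mul, Nat.cast_sub (by omega)]
            congr 1; ring
    have h6 : (n : ℝ) / 2 ≤ n - m := by
      have : (2 * m : ℝ) ≤ n := by exact_mod_cast hcase
      linarith
    have h7 : Real.exp (-((p ^ r * (1 - p) ^ (m - 1 - r)) * (n - m))) ≤ Real.exp (-(1 / 2)) := by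
      rw [Real.exp_le_exp]
      have : (p ^ r * (1 - p) ^ (m - 1 - r)) * (n / 2) ≤ (p ^ r * (1 - p) ^ (m - 1 - r)) * (n - m) :=
        mul_le_mul_of_nonneg_left h6 hqpos.le
      linarith
    have h8 : Real.exp (-(1 / 2)) ≤ 2 / 3 := by
      rw [Real.exp_neg]
      have h9 := Real.add_one_le_exp (1 / 2 : ℝ)
      rw [inv_le_comm₀ (Real.exp_pos _) (by norm_num)]
      linarith
    linarith

theorem k_bounds (h1 : 1000 ≤ Real.log m) (h2 : 10000 * Real.log m ≤ m) (k : ℕ)
    (hk : k = ⌊(m : ℝ) / (8 * Real.log m)⌋₊) :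
    (k : ℝ) ≤ (m : ℝ) / (8 * Real.log m) ∧ (m : ℝ) / (16 * Real.log m) ≤ k ∧
      (k : ℝ) ≤ (m : ℝ) / 8000 := by
  have hl : 0 < Real.log m := by linarith
  have hm0 : (0 : ℝ) < m := by nlinarith
  have ha : (k : ℝ) ≤ (m : ℝ) / (8 * Real.log m) := by
    rw [hk]; exact Nat.floor_le (by positivity)
  refine ⟨ha, ?_, ?_⟩
  · have h3 : (m : ℝ) / (8 * Real.log m) < k + 1 := by
      rw [hk]; exact Nat.lt_floor_add_one _
    have h4 : (1 : ℝ) ≤ (m : ℝ) / (16 * Real.log m) := by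
      rw [one_le_div (by positivity)]; linarith
    have h5 : (m : ℝ) / (8 * Real.log m) = 2 * ((m : ℝ) / (16 * Real.log m)) := by
      field_simp; norm_num
    linarith
  · refine ha.trans ?_
    refine div_le_div_of_nonneg_left hm0.le (by norm_num) ?_
    linarith

theorem second_factor (h1 : 1000 ≤ Real.log m) (h2 : 10000 * Real.log m ≤ m) (hp0 : 0 < p)
    (hp : p ≤ 1 / 1000) (hmp : (m : ℝ) * p ≤ 305 / 100 * Real.log m) (k : ℕ)
    (hk : k = ⌊(m : ℝ) / (8 * Real.log m)⌋₊) : 1 / 2 ≤ (1 - p) ^ (k - 1) := by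
  have hl : 0 < Real.log m := by linarith
  obtain ⟨ha, _, _⟩ := k_bounds h1 h2 k hk
  have h3 : (k : ℝ) * p ≤ 1 / 2 := by
    calc (k : ℝ) * p ≤ (m : ℝ) / (8 * Real.log m) * p := mul_le_mul_of_nonneg_right ha hp0.le
      _ = ((m : ℝ) * p) / (8 * Real.log m) := by ring
      _ ≤ 1 / 2 := by
        rw [div_le_iff₀ (by positivity)]; linarith
  have h4 : (1 - p) ^ k ≤ (1 - p) ^ (k - 1) :=
    pow_le_pow_of_le_one (by linarith) (by linarith) (by omega)
  have h5 := one_add_mul_le_pow (by linarith : (-2 : ℝ) ≤ -p) k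
  have h6 : (1 : ℝ) + -p = 1 - p := by ring
  rw [h6] at h5
  linarith

theorem first_factor (h1 : 1000 ≤ Real.log m) (h2 : 10000 * Real.log m ≤ m) (hp0 : 0 < p)
    (hp : p ≤ 1 / 1000) (hmp : (m : ℝ) * p ≤ 305 / 100 * Real.log m) (k : ℕ)
    (hk : k = ⌊(m : ℝ) / (8 * Real.log m)⌋₊) (r : ℕ) (hr : r = ⌊2 / 5 * ((m : ℝ) * p)⌋₊)
    (ha1 : ((m - k).choose r : ℝ) * p ^ r * (1 - p) ^ (m - k - r) ≤ 1) :
    1 / 2 ≤ 1 - (1 - ((m - k).choose r : ℝ) * p ^ r * (1 - p) ^ (m - k - r)) ^ k := by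
  have hl : 0 < Real.log m := by linarith
  have hm0 : (0 : ℝ) < m := by nlinarith
  obtain ⟨hka, hkb, hkc⟩ := k_bounds h1 h2 k hk
  have hq1p : 0 < 1 - p := by linarith
  have hmp0 : 0 < (m : ℝ) * p := mul_pos hm0 hp0
  have hlq := log_one_sub_ge hp0 hp
  have hlq0 : Real.log (1 - p) ≤ 0 := Real.log_nonpos (by linarith) (by linarith)
  have hrle : (r : ℝ) ≤ 2 / 5 * ((m : ℝ) * p) := by
    rw [hr]; exact Nat.floor_le (by positivity)
  have hrge : 2 / 5 * ((m : ℝ) * p) < r + 1 := by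
    rw [hr]; exact Nat.lt_floor_add_one _
  have hrm : (r : ℝ) ≤ 9 / 1000 * m := by nlinarith
  have hkr : (k : ℝ) + r < m := by nlinarith
  have hkrN : k + r < m := by exact_mod_cast hkr
  set a : ℝ := ((m - k).choose r : ℝ) * p ^ r * (1 - p) ^ (m - k - r) with ha
  have hchoose : 0 < ((m - k).choose r : ℝ) := by
    exact_mod_cast Nat.choose_pos (by omega : r ≤ m - k)
  have hapos : 0 < a := mul_pos (mul_pos hchoose (pow_pos hp0 _)) (pow_pos hq1p _)
  have hloga : Real.log a = Real.log ((m - k).choose r : ℝ) + r * Real.log p +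
      ((m - k - r : ℕ) : ℝ) * Real.log (1 - p) := by
    rw [ha, Real.log_mul (mul_pos hchoose (pow_pos hp0 _)).ne' (pow_pos hq1p _).ne',
      Real.log_mul hchoose.ne' (pow_pos hp0 _).ne', Real.log_pow, Real.log_pow]
  have h3 : -((m : ℝ) * (p * (1001 / 1000 + 1 / 100000))) ≤
      ((m - k - r : ℕ) : ℝ) * Real.log (1 - p) := by
    have h4 : ((m - k - r : ℕ) : ℝ) ≤ m := by exact_mod_cast (by omega : m - k - r ≤ m)
    have h5 : (m : ℝ) * Real.log (1 - p) ≤ ((m - k - r : ℕ) : ℝ) * Real.log (1 - p) :=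
      mul_le_mul_of_nonpos_right h4 hlq0
    nlinarith
  have hmain : -(81 / 100) * Real.log m ≤ Real.log a := by
    rw [hloga]
    rcases Nat.eq_zero_or_pos r with h0 | h0
    · rw [h0] at hrge ⊢
      rw [h0] at h3
      simp only [Nat.choose_zero_right, Nat.cast_one, Real.log_one, Nat.cast_zero, zero_mul,
        zero_add] at hrge ⊢
      nlinarith
    · have hr1 : (1 : ℝ) ≤ r := by exact_mod_cast h0
      have h4 := log_choose_ge (N := m - k) (r := r) h0 (by omega)
      rw [Nat.cast_sub (by omega : k ≤ m)] at h4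
      have hmkr : 99 / 100 * (m : ℝ) ≤ (m : ℝ) - k - r := by nlinarith
      have hmkr0 : 0 < (m : ℝ) - k - r := by linarith
      have h5 : Real.log (99 / 40) ≤ Real.log (((m : ℝ) - k - r) * p / r) := by
        apply Real.log_le_log (by norm_num)
        rw [le_div_iff₀ (by linarith)]
        nlinarith
      rw [Real.log_div (mul_pos hmkr0 hp0).ne' (by linarith), Real.log_mul hmkr0.ne' hp0.ne'] at h5
      have h6 := log_large_ge
      have h7 : (r : ℝ) * (9 / 10) ≤ r * (Real.log ((m : ℝ) - k - r) + Real.log p - Real.log r) :=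
        mul_le_mul_of_nonneg_left (by linarith) (by linarith)
      have h8 : Real.log r ≤ 22 / 100 + 64 / 1000 * Real.log m := by
        have h9 : (r : ℝ) ≤ 122 / 100 * Real.log m := by linarith
        have h10 := Real.log_le_log (by linarith) h9
        rw [Real.log_mul (by norm_num) hl.ne'] at h10
        have h11 : Real.log (122 / 100) ≤ 122 / 100 - 1 := Real.log_le_sub_one_of_pos (by norm_num)
        have h12 := log_le_mul h1
        linarith
      nlinarith
  have hk0 : (0 : ℝ) < k := lt_of_lt_of_le (by positivity) hkb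
  have hlogk : 9 / 10 * Real.log m ≤ Real.log k := by
    have h4 := Real.log_le_log (by positivity) hkb
    rw [Real.log_div hm0.ne' (by positivity), Real.log_mul (by norm_num) hl.ne'] at h4
    have h5 := log_le_mul h1
    have h6 : Real.log 16 ≤ 16 - 1 := Real.log_le_sub_one_of_pos (by norm_num)
    linarith
  have hak : 1 ≤ a * k := by
    have h4 : 0 ≤ Real.log (a * k) := by
      rw [Real.log_mul hapos.ne' hk0.ne']; linarith
    exact (Real.log_nonneg_iff (mul_pos hapos hk0)).1 h4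
  have h4 : (1 - a) ^ k ≤ Real.exp (-(a * k)) := by
    have h6 : 1 - a ≤ Real.exp (-a) := by
      have := Real.add_one_le_exp (-a)
      linarith
    calc (1 - a) ^ k ≤ (Real.exp (-a)) ^ k := pow_le_pow_left₀ (by linarith) h6 _
      _ = Real.exp (-(a * k)) := by
          rw [← Real.exp_nat_mul]; congr 1; ring
  have h5 : Real.exp (-(a * k)) ≤ Real.exp (-1) := by
    rw [Real.exp_le_exp]; linarith
  have h6 : Real.exp (-1) ≤ 1 / 2 := by
    rw [Real.exp_neg]
    have h9 := Real.add_one_le_exp (1 : ℝ)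
    rw [inv_le_comm₀ (Real.exp_pos _) (by norm_num)]
    linarith
  linarith

end

end Pool.Agent.Helper17.ER
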