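import Mathlib
import Pool.Agent.Helper17.ER.Defs
import Pool.Agent.Helper17.ER.Bounds
import Pool.Agent.Helper17.ER.GoodProb
import Pool.Agent.Helper17.ER.Count
import Pool.Agent.Helper17.ER.Sparse

/-! Assembly. -/

open scoped BigOperators

namespace Pool.Agent.Helper17.ER

open Classical in
theorem good_lower {n m : ℕ} {p : ℝ} (h1 : 1000 ≤ Real.log m) (h2 : 10000 * Real.log m ≤ m)
    (hmn : m + 1 ≤ n) (hp0 : 0 < p) (hp2 : p ≤ 1 / 2)
    (hsp : p * (1 - p) * ((m : ℝ) - 2) / 3 < Real.log m)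
    (hω : (m : ℝ) / 2 * Real.binEntropy p ≤ Real.log n)
    (S : Finset (Fin n)) (hS : S.card = m) :
    1 / 50 ≤ ∑ G : SimpleGraph (Fin n), erMass n p G * (if Good G S then 1 else 0) := by
  have hp := sparse_p_le h1 h2 hp0 hp2 hsp
  have hmp := sparse_mp_le h1 h2 hp0 hp hsp
  obtain ⟨hka, hkb, hkc⟩ := k_bounds h1 h2 _ rfl
  set k := ⌊(m : ℝ) / (8 * Real.log m)⌋₊ with hk
  set r := ⌊2 / 5 * ((m : ℝ) * p)⌋₊ with hr
  have hkm : k ≤ m := by
    have h3 : (k : ℝ) ≤ m := by
      refine hkc.trans ?_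
      have : (0 : ℝ) ≤ m := Nat.cast_nonneg _
      linarith
    exact_mod_cast h3
  obtain ⟨U, hU, hUk⟩ := Finset.exists_subset_card_eq (hS ▸ hkm : k ≤ S.card)
  have hmain := good_prob_ge S U hU hp0.le (by linarith : p ≤ 1) r
  rw [hS, hUk] at hmain
  have ha1 : ((m - k).choose r : ℝ) * p ^ r * (1 - p) ^ (m - k - r) ≤ 1 := by
    have h3 := sum_w_card (E := Fin (m - k)) p r
    rw [Fintype.card_fin] at h3
    rw [← h3]
    refine sum_w_mul_le hp0.le (by linarith) fun x => ?_
    split_ifs <;> norm_num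
  have hf1 := first_factor h1 h2 hp0 hp hmp k hk r hr ha1
  have hf2 := second_factor h1 h2 hp0 hp hmp k hk
  have hf3 := third_factor hmn h1 hp0 hp hmp hω r hr
  refine le_trans ?_ hmain
  calc (1 : ℝ) / 50 = (1 / 2) * ((1 / 2) * (2 / 25)) := by norm_num
    _ ≤ _ := by
      refine mul_le_mul hf1 (mul_le_mul hf2 hf3 (by norm_num) ?_) (by norm_num) ?_
      · linarith
      · linarith

open Classical in
theorem good_lower' {n m : ℕ} {p : ℝ} (h1 : 1000 ≤ Real.log m) (h2 : 10000 * Real.log m ≤ m)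
    (hmn : m + 1 ≤ n) (hp0 : 0 < p) (hp1 : p < 1)
    (hsp : p * (1 - p) * ((m : ℝ) - 2) / 3 < Real.log m)
    (hω : (m : ℝ) / 2 * Real.binEntropy p ≤ Real.log n)
    (S : Finset (Fin n)) (hS : S.card = m) :
    1 / 50 ≤ ∑ G : SimpleGraph (Fin n), erMass n p G * (if Good G S then 1 else 0) := by
  rcases le_total p (1 / 2) with h | h
  · exact good_lower h1 h2 hmn hp0 h hsp hω S hS
  · rw [good_prob_symm p S]
    refine good_lower h1 h2 hmn (by linarith) (by linarith) ?_ ?_ S hS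
    · have : (1 - p) * (1 - (1 - p)) = p * (1 - p) := by ring
      rw [this]; exact hsp
    · rw [Real.binEntropy_one_sub]; exact hω

/-- The uniform bound. -/
theorem uniform_bound : ∃ K : ℝ, ∀ (n m : ℕ) (p : ℝ) (A : Estimator n m), 1 ≤ m → m + 1 ≤ n →
    0 < p → p < 1 → K ≤ Real.log n - (m : ℝ) / 2 * Real.binEntropy p →
    successProb n m p A ≤ 99 / 100 := by
  have h1 : ∀ᶠ m : ℕ in Filter.atTop, 1000 ≤ Real.log m :=
    (Real.tendsto_log_atTop.comp tendsto_natCast_atTop_atTop).eventually_ge_atTop 1000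
  have h2 : ∀ᶠ m : ℕ in Filter.atTop, 10000 * Real.log m ≤ m := by
    have h3 := (Real.isLittleO_log_id_atTop.comp_tendsto
      (tendsto_natCast_atTop_atTop (R := ℝ))).bound (by norm_num : (0 : ℝ) < 1 / 10000)
    filter_upwards [h3, Filter.eventually_ge_atTop 1] with m hm hm1
    simp only [Function.comp, id, Real.norm_eq_abs] at hm
    have hm1' : (1 : ℝ) ≤ m := by exact_mod_cast hm1
    rw [abs_of_nonneg (Real.log_nonneg hm1'), abs_of_nonneg (by linarith : (0 : ℝ) ≤ m)] at hm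
    linarith
  obtain ⟨M0, hM0⟩ := Filter.eventually_atTop.1 (h1.and h2)
  refine ⟨5 + Real.log (M0 + 1), ?_⟩
  intro n m p A hm hmn hp0 hp1 hω
  have hlogM : 0 ≤ Real.log ((M0 : ℝ) + 1) := Real.log_nonneg (by
    have : (0 : ℝ) ≤ M0 := Nat.cast_nonneg _
    linarith)
  rcases Nat.lt_or_ge m M0 with hcase | hcase
  · -- small m
    have hm1 : (1 : ℝ) ≤ m := by exact_mod_cast hm
    have h3 : Real.log m ≤ Real.log (M0 + 1) := by
      apply Real.log_le_log (by linarith)
      have : (m : ℝ) < M0 := by exact_mod_cast hcase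
      linarith
    have := success_small hm (by omega) hp0 hp1 A (by linarith)
    linarith
  · obtain ⟨ha, hb⟩ := hM0 m hcase
    have hm2 : 2 ≤ m := by
      have h4 : (2 : ℝ) ≤ m := by linarith
      exact_mod_cast h4
    rcases le_or_gt (Real.log m) (p * (1 - p) * ((m : ℝ) - 2) / 3) with hd | hd
    · have := success_dense hm2 (by omega) hp0 hp1 A hd (by linarith)
      linarith
    · have h5 := success_le_swap (by omega) hp0.le hp1.le A (c := 1 / 50)
        (fun S hS => good_lower' ha hb hmn hp0 hp1 hd (by linarith) S hS)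
      linarith

end Pool.Agent.Helper17.ER
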